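import Pool.Agent.Helper36.Hub.Base

/-!
# The ladder function of a cycle (module HUB-6 of MP_c54260_co, Q2)
-/

set_option autoImplicit false

namespace Pool.Agent.Helper36.Hub

open Finset
open Pool.Agent.Helper36.CL (HasCyc)

variable {V : Type*}

/-- off the cycle or at a position at most `y` -/
private def ladder_A (N : ℕ) (u : ℕ → V) (y : ℕ) (v : V) : Prop :=
  (∀ k < N, u k ≠ v) ∨ ∃ k ≤ y, u k = v

/-- there is a walk of length `k` from `u 0` to `u y` inside `ladder_A N u y` -/
private def ladder_W (G : SimpleGraph V) (N : ℕ) (u : ℕ → V) (y k : ℕ) : Prop :=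
  ∃ φ : ℕ → V, φ 0 = u 0 ∧ φ k = u y ∧ (∀ i ≤ k, ladder_A N u y (φ i)) ∧
    ∀ i < k, G.Adj (φ i) (φ (i + 1))

private theorem ladder_A_mono {N : ℕ} {u : ℕ → V} {y z : ℕ} (h : y ≤ z) {v : V}
    (hv : ladder_A N u y v) : ladder_A N u z v := by
  rcases hv with hv | ⟨k, hk, e⟩
  · exact Or.inl hv
  · exact Or.inr ⟨k, by omega, e⟩

private theorem ladder_W_self {G : SimpleGraph V} {N : ℕ} {u : ℕ → V} (hu : Cy G N u)
    {y : ℕ} (hy : y < N) : ladder_W G N u y y := by
  refine ⟨u, rfl, rfl, ?_, ?_⟩
  · intro i hi
    exact Or.inr ⟨i, hi, rfl⟩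
  · intro i hi
    exact hu.step i (by omega)

private theorem ladder_W_step {G : SimpleGraph V} {N : ℕ} {u : ℕ → V} {i j k : ℕ} (hij : i ≤ j)
    (hadj : G.Adj (u i) (u j)) (h : ladder_W G N u i k) : ladder_W G N u j (k + 1) := by
  obtain ⟨φ, h0, hk, hA, hs⟩ := h
  refine ⟨fun t => if t ≤ k then φ t else u j, by simp [h0], by simp, ?_, ?_⟩
  · intro t ht
    by_cases h : t ≤ k
    · simp only [h, if_true]
      exact ladder_A_mono hij (hA t h)
    · simp only [h, if_false]
      exact Or.inr ⟨j, le_rfl, rfl⟩
  · intro t ht
    by_cases h : t + 1 ≤ k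
    · have h' : t ≤ k := by omega
      simp only [h, h', if_true]
      exact hs t (by omega)
    · have h' : t = k := by omega
      subst h'
      simp only [le_refl, if_true, h, if_false, hk]
      exact hadj

private theorem ladder_W_step2 {G : SimpleGraph V} {N : ℕ} {u : ℕ → V} {i j k : ℕ} {v : V}
    (hij : i ≤ j) (hadj : G.Adj (u i) v) (hadj2 : G.Adj v (u j)) (hv : ladder_A N u j v)
    (h : ladder_W G N u i k) : ladder_W G N u j (k + 2) := by
  obtain ⟨φ, h0, hk, hA, hs⟩ := h
  refine ⟨fun t => if t ≤ k then φ t else if t = k + 1 then v else u j, by simp [h0],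
    by simp, ?_, ?_⟩
  · intro t ht
    by_cases h : t ≤ k
    · simp only [h, if_true]
      exact ladder_A_mono hij (hA t h)
    · by_cases h2 : t = k + 1
      · simp only [h, if_false, h2, if_true]
        simpa using hv
      · simp only [h, if_false, h2]
        exact Or.inr ⟨j, le_rfl, rfl⟩
  · intro t ht
    by_cases h : t + 1 ≤ k
    · have h' : t ≤ k := by omega
      simp only [h, h', if_true]
      exact hs t (by omega)
    · by_cases h2 : t = k
      · subst h2
        simp only [le_refl, if_true, h, if_false, hk]
        exact hadj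
      · have h3 : t = k + 1 := by omega
        subst h3
        have e1 : ¬ (k + 1 ≤ k) := by omega
        have e2 : ¬ (k + 1 + 1 ≤ k) := by omega
        have e3 : ¬ (k + 1 + 1 = k + 1) := by omega
        simp only [e1, e2, e3, if_false, if_true]
        exact hadj2

private theorem ladder_cyc {G : SimpleGraph V} {N : ℕ} {u : ℕ → V} (hu : Cy G N u) {y d : ℕ}
    (hy : y + 1 < N) (hd : ladder_W G N u y d) (hmin : ∀ k < d, ¬ ladder_W G N u y k) :
    HasCyc G (d + (N - y)) := by
  obtain ⟨φ, h0, hk, hA, hs⟩ := hd
  -- the shortest walk is injective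
  have hinj : ∀ i j, i < j → j ≤ d → φ i ≠ φ j := by
    intro i j hij hjd he
    refine hmin (d - (j - i)) (by omega) ?_
    refine ⟨fun t => if t ≤ i then φ t else φ (t + (j - i)), by simp [h0], ?_, ?_, ?_⟩
    · by_cases h : d - (j - i) ≤ i
      · have e : j = d := by omega
        subst e
        have e2 : j - (j - i) = i := by omega
        simp only [e2, le_refl, if_true]
        rw [he, hk]
      · simp only [h, if_false]
        rw [show d - (j - i) + (j - i) = d by omega, hk]
    · intro t ht
      by_cases h : t ≤ i
      · simp only [h, if_true]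
        exact hA t (by omega)
      · simp only [h, if_false]
        exact hA _ (by omega)
    · intro t ht
      by_cases h : t + 1 ≤ i
      · have h' : t ≤ i := by omega
        simp only [h, h', if_true]
        exact hs t (by omega)
      · by_cases h2 : t = i
        · subst h2
          simp only [le_refl, if_true, h, if_false]
          rw [he, show t + 1 + (j - t) = j + 1 by omega]
          exact hs j (by omega)
        · have h3 : ¬ t ≤ i := by omega
          simp only [h, h3, if_false]
          rw [show t + 1 + (j - i) = t + (j - i) + 1 by omega]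
          exact hs _ (by omega)
  have hcross : ∀ i ≤ d, ∀ s, y < s → s < N → φ i ≠ u s := by
    intro i hi s h1 h2 he
    rcases hA i hi with h | ⟨k, hk', e⟩
    · exact h s h2 he.symm
    · have := hu.inj k (by omega) s h2 (e.trans he)
      omega
  have hd1 : y + 2 = N → 1 ≤ d := by
    intro h
    by_contra hc
    have : d = 0 := by omega
    subst this
    have h3 := hu.three
    have := hu.inj 0 (by omega) y (by omega) (h0.symm.trans hk)
    omega
  have h3 : 3 ≤ d + (N - y) := by
    by_cases h : y + 2 = N
    · have := hd1 h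
      omega
    · omega
  refine Pool.Agent.Helper36.CL.hasCyc_of_adj G _ h3
    (fun i => if i ≤ d then φ i else u (y + (i - d))) ?_ ?_ ?_
  · intro i hi j hj he
    by_cases h1 : i ≤ d
    · by_cases h2 : j ≤ d
      · simp only [h1, h2, if_true] at he
        rcases lt_trichotomy i j with h | h | h
        · exact absurd he (hinj i j h h2)
        · exact h
        · exact absurd he.symm (hinj j i h h1)
      · simp only [h1, h2, if_true, if_false] at he
        exact absurd he (hcross i h1 _ (by omega) (by omega))
    · by_cases h2 : j ≤ d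
      · simp only [h1, h2, if_true, if_false] at he
        exact absurd he.symm (hcross j h2 _ (by omega) (by omega))
      · simp only [h1, h2, if_false] at he
        have := hu.inj _ (by omega) _ (by omega) he
        omega
  · intro i hi
    by_cases h1 : i + 1 ≤ d
    · have h2 : i ≤ d := by omega
      simp only [h1, h2, if_true]
      exact hs i (by omega)
    · by_cases h2 : i = d
      · subst h2
        simp only [le_refl, if_true, h1, if_false, hk]
        rw [show y + (i + 1 - i) = y + 1 by omega]
        exact hu.step y hy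
      · have h3 : ¬ i ≤ d := by omega
        simp only [h1, h3, if_false]
        rw [show y + (i + 1 - d) = y + (i - d) + 1 by omega]
        exact hu.step _ (by omega)
  · have h1 : ¬ (d + (N - y) - 1 ≤ d) := by omega
    simp only [h1, if_false, Nat.zero_le, if_true, h0]
    rw [show y + (d + (N - y) - 1 - d) = N - 1 by omega]
    exact hu.close

theorem exists_ladder {G : SimpleGraph V} {N : ℕ} {u : ℕ → V} (hu : Cy G N u) :
    ∃ M : ℕ → ℕ,
      (∀ y, y + 1 < N → M y ≤ M (y + 1)) ∧
      (∀ y, y + 1 < N → M y ≤ y ∧ HasCyc G (N - M y)) ∧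
      (∀ i j, i < j → j < N → G.Adj (u i) (u j) → M i + (j - i) ≤ M j + 1) ∧
      (∀ i j v, i < j → j < N → G.Adj (u i) v → G.Adj v (u j) →
        ((∀ k < N, u k ≠ v) ∨ ∃ k ≤ j, u k = v) → M i + (j - i) ≤ M j + 2) := by
  classical
  let d : ℕ → ℕ := fun y => sInf {k | ladder_W G N u y k}
  have hW : ∀ y, y < N → ladder_W G N u y (d y) := by
    intro y hy
    exact Nat.sInf_mem (s := {k | ladder_W G N u y k}) ⟨y, ladder_W_self hu hy⟩
  have hle : ∀ y k, ladder_W G N u y k → d y ≤ k := by
    intro y k h
    exact Nat.sInf_le h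
  have hdy : ∀ y, y < N → d y ≤ y := fun y hy => hle y y (ladder_W_self hu hy)
  refine ⟨fun y => y - d y, ?_, ?_, ?_, ?_⟩
  · intro y hy
    have h1 := hle (y + 1) (d y + 1)
      (ladder_W_step (by omega) (hu.step y hy) (hW y (by omega)))
    have h2 := hdy y (by omega)
    show y - d y ≤ y + 1 - d (y + 1)
    omega
  · intro y hy
    refine ⟨Nat.sub_le _ _, ?_⟩
    have h2 := hdy y (by omega)
    have h3 := ladder_cyc hu hy (hW y (by omega)) (by
      intro k hk h
      have := hle y k h
      omega)
    show HasCyc G (N - (y - d y))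
    rw [show N - (y - d y) = d y + (N - y) by omega]
    exact h3
  · intro i j hij hj hadj
    have h1 := hle j (d i + 1) (ladder_W_step (by omega) hadj (hW i (by omega)))
    have h2 := hdy i (by omega)
    have h3 := hdy j hj
    show i - d i + (j - i) ≤ j - d j + 1
    omega
  · intro i j v hij hj h1 h2 hv
    have h4 := hle j (d i + 2) (ladder_W_step2 (by omega) h1 h2 hv (hW i (by omega)))
    have h5 := hdy i (by omega)
    have h6 := hdy j hj
    show i - d i + (j - i) ≤ j - d j + 2
    omega

end Pool.Agent.Helper36.Hub
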