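import Pool.Agent.Helper36.Hub.Base

/-!
# Progress of the ladder function
-/

set_option autoImplicit false

namespace Pool.Agent.Helper36.Hub

open Finset
open Pool.Agent.Helper36.CL (HasCyc)

variable {V : Type*}

private theorem prog_mono (M : ℕ → ℕ) (N : ℕ) (hM : ∀ y, y + 1 < N → M y ≤ M (y + 1)) :
    ∀ s t, s ≤ t → t < N → M s ≤ M t := by
  intro s t hst
  induction t, hst using Nat.le_induction with
  | base => intro _; exact le_rfl
  | succ t _ ih => intro h; exact (ih (by omega)).trans (hM t h)

private theorem prog_card_le (R : Finset ℕ) (a b : ℕ) :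
    (R.filter (fun x => a ≤ x ∧ x < b)).card ≤ b - a := by
  calc (R.filter (fun x => a ≤ x ∧ x < b)).card ≤ (Finset.Ico a b).card := by
        apply Finset.card_le_card
        intro x hx
        rw [Finset.mem_filter] at hx
        rw [Finset.mem_Ico]
        exact hx.2
    _ = b - a := Nat.card_Ico a b

private theorem prog_card_le' (R : Finset ℕ) (a b : ℕ) :
    (R.filter (fun x => a < x ∧ x ≤ b)).card ≤ b - a := by
  calc (R.filter (fun x => a < x ∧ x ≤ b)).card ≤ (Finset.Ioc a b).card := by
        apply Finset.card_le_card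
        intro x hx
        rw [Finset.mem_filter] at hx
        rw [Finset.mem_Ioc]
        exact hx.2
    _ = b - a := Nat.card_Ioc a b

private theorem prog_split (R : Finset ℕ) (a b c : ℕ) (hab : a ≤ b) (hbc : b ≤ c) :
    (R.filter (fun x => a ≤ x ∧ x < c)).card =
      (R.filter (fun x => a ≤ x ∧ x < b)).card + (R.filter (fun x => b ≤ x ∧ x < c)).card := by
  rw [← Finset.card_union_of_disjoint]
  · congr 1
    ext x
    simp only [Finset.mem_union, Finset.mem_filter]
    constructor
    · rintro ⟨h1, h2, h3⟩
      by_cases h : x < b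
      · exact Or.inl ⟨h1, h2, h⟩
      · exact Or.inr ⟨h1, by omega, h3⟩
    · rintro (⟨h1, h2, h3⟩ | ⟨h1, h2, h3⟩)
      · exact ⟨h1, h2, by omega⟩
      · exact ⟨h1, by omega, h3⟩
  · rw [Finset.disjoint_left]
    intro x hx hy
    simp only [Finset.mem_filter] at hx hy
    omega

private theorem prog_split' (R : Finset ℕ) (a b c : ℕ) (hab : a ≤ b) (hbc : b ≤ c) :
    (R.filter (fun x => a < x ∧ x ≤ c)).card =
      (R.filter (fun x => a < x ∧ x ≤ b)).card + (R.filter (fun x => b < x ∧ x ≤ c)).card := by
  rw [← Finset.card_union_of_disjoint]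
  · congr 1
    ext x
    simp only [Finset.mem_union, Finset.mem_filter]
    constructor
    · rintro ⟨h1, h2, h3⟩
      by_cases h : x ≤ b
      · exact Or.inl ⟨h1, h2, h⟩
      · exact Or.inr ⟨h1, by omega, h3⟩
    · rintro (⟨h1, h2, h3⟩ | ⟨h1, h2, h3⟩)
      · exact ⟨h1, h2, by omega⟩
      · exact ⟨h1, by omega, h3⟩
  · rw [Finset.disjoint_left]
    intro x hx hy
    simp only [Finset.mem_filter] at hx hy
    omega

theorem progress_left (M : ℕ → ℕ) (N z : ℕ) (hM : ∀ y, y + 1 < N → M y ≤ M (y + 1))
    (R : Finset ℕ)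
    (hR : ∀ t ∈ R, ∃ j, t < j ∧ j < N ∧ j ≤ t + z ∧ 3 * M t + (j - t) ≤ 3 * M j) :
    ∀ s t, s ≤ t → t < N →
      3 * M s + (R.filter (fun x => s ≤ x ∧ x < t)).card ≤ 3 * M t + z := by
  intro s t
  induction hn : t - s using Nat.strong_induction_on generalizing s with
  | _ n ih =>
    intro hst htN
    have hmono := prog_mono M N hM
    by_cases hne : (R.filter (fun x => s ≤ x ∧ x < t)).Nonempty
    · set r := (R.filter (fun x => s ≤ x ∧ x < t)).min' hne with hr
      have hrm := Finset.min'_mem _ hne
      rw [← hr, Finset.mem_filter] at hrm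
      obtain ⟨hrR, hsr, hrt⟩ := hrm
      have hzero : (R.filter (fun x => s ≤ x ∧ x < r)).card = 0 := by
        rw [Finset.card_eq_zero, Finset.filter_eq_empty_iff]
        rintro x hx ⟨h1, h2⟩
        have h3 : x ∈ R.filter (fun x => s ≤ x ∧ x < t) :=
          Finset.mem_filter.mpr ⟨hx, h1, by omega⟩
        have h4 := Finset.min'_le _ x h3
        rw [← hr] at h4
        omega
      obtain ⟨j, h1, h2, h3, h4⟩ := hR r hrR
      have hm1 := hmono s r hsr (by omega)
      rw [prog_split R s r t hsr (by omega), hzero]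
      by_cases htj : t ≤ j
      · have h5 := prog_card_le R r t
        have h6 := hmono s t hst htN
        omega
      · have h5 := prog_card_le R r j
        have h6 := ih (t - j) (by omega) j rfl (by omega) htN
        rw [prog_split R r j t (by omega) (by omega)]
        omega
    · rw [Finset.not_nonempty_iff_eq_empty] at hne
      rw [hne, Finset.card_empty]
      have := hmono s t hst htN
      omega

theorem progress_right (M : ℕ → ℕ) (N z : ℕ) (hM : ∀ y, y + 1 < N → M y ≤ M (y + 1))
    (R : Finset ℕ)
    (hR : ∀ t ∈ R, ∃ i, i < t ∧ t < N ∧ t ≤ i + z ∧ 3 * M i + (t - i) ≤ 3 * M t) :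
    ∀ s t, s ≤ t → t < N →
      3 * M s + (R.filter (fun x => s < x ∧ x ≤ t)).card ≤ 3 * M t + z := by
  intro s t
  induction hn : t - s using Nat.strong_induction_on generalizing t with
  | _ n ih =>
    intro hst htN
    have hmono := prog_mono M N hM
    by_cases hne : (R.filter (fun x => s < x ∧ x ≤ t)).Nonempty
    · set r := (R.filter (fun x => s < x ∧ x ≤ t)).max' hne with hr
      have hrm := Finset.max'_mem _ hne
      rw [← hr, Finset.mem_filter] at hrm
      obtain ⟨hrR, hsr, hrt⟩ := hrm
      have hzero : (R.filter (fun x => r < x ∧ x ≤ t)).card = 0 := by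
        rw [Finset.card_eq_zero, Finset.filter_eq_empty_iff]
        rintro x hx ⟨h1, h2⟩
        have h3 : x ∈ R.filter (fun x => s < x ∧ x ≤ t) :=
          Finset.mem_filter.mpr ⟨hx, by omega, h2⟩
        have h4 := Finset.le_max' _ x h3
        rw [← hr] at h4
        omega
      obtain ⟨i, h1, h2, h3, h4⟩ := hR r hrR
      have hm1 := hmono r t hrt htN
      rw [prog_split' R s r t (by omega) hrt, hzero]
      by_cases his : i ≤ s
      · have h5 := prog_card_le' R s r
        have h6 := hmono s t hst htN
        omega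
      · have h5 := prog_card_le' R i r
        have h6 := ih (i - s) (by omega) i rfl (by omega) (by omega)
        rw [prog_split' R s i r (by omega) (by omega)]
        omega
    · rw [Finset.not_nonempty_iff_eq_empty] at hne
      rw [hne, Finset.card_empty]
      have := hmono s t hst htN
      omega

theorem extract_lengths (N z q k : ℕ) (hq : 1 ≤ q) (M : ℕ → ℕ) (Q : ℕ → Prop)
    (hQ : ∀ y, y + 1 < N → M y ≤ y ∧ Q (N - M y)) (R : Finset ℕ)
    (hRN : ∀ t ∈ R, t + 1 < N)
    (hprog : ∀ s t, s ≤ t → t < N →
      3 * M s + (R.filter (fun x => s ≤ x ∧ x < t)).card ≤ 3 * M t + z)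
    (hk : k * (6 * q + z) ≤ R.card) :
    ∃ L : Finset ℕ, (∀ l ∈ L, Q l) ∧ (∀ x ∈ L, ∀ y ∈ L, x < y → x + 2 * q ≤ y) ∧
      k ≤ L.card := by
  classical
  rcases Nat.eq_zero_or_pos k with rfl | hkpos
  · exact ⟨∅, by simp, by simp, by simp⟩
  set g : ℕ → ℕ := fun t => (R.filter (fun x => 0 ≤ x ∧ x < t)).card with hg
  have hg0 : g 0 = 0 := by
    simp [hg]
  have hgs : ∀ t, g (t + 1) ≤ g t + 1 := by
    intro t
    have h1 := prog_split R 0 t (t + 1) (by omega) (by omega)
    have h2 := prog_card_le R t (t + 1)
    simp only [hg]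
    omega
  have hgN : g N = R.card := by
    simp only [hg]
    congr 1
    apply Finset.filter_true_of_mem
    intro x hx
    have := hRN x hx
    omega
  have hgmono : ∀ s t, s ≤ t → g s ≤ g t := by
    intro s t hst
    have h1 := prog_split R 0 s t (by omega) hst
    simp only [hg]
    omega
  set c := 6 * q + z with hc
  have hc6 : 6 ≤ c := by omega
  -- discrete intermediate values
  have hiv : ∀ v, v < R.card → ∃ y, g y = v ∧ y + 1 < N := by
    intro v hv
    have hex : ∃ y, v < g y := ⟨N, by rw [hgN]; exact hv⟩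
    have h1 := Nat.find_spec hex
    have h2 : Nat.find hex ≠ 0 := by
      intro h0
      rw [h0, hg0] at h1
      omega
    obtain ⟨y, hy⟩ := Nat.exists_eq_succ_of_ne_zero h2
    have h3 : ¬ v < g y := Nat.find_min hex (by omega)
    rw [hy] at h1
    have h4 := hgs y
    have h5 : g y = v := by
      have : g (y + 1) = g (Nat.succ y) := rfl
      omega
    refine ⟨y, h5, ?_⟩
    by_contra hcon
    have h6 : g y = g N := by
      refine le_antisymm ?_ ?_
      · rw [hgN]
        exact Finset.card_le_card (Finset.filter_subset _ _)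
      · -- all elements of R are below N - 1 ≤ y
        simp only [hg]
        apply Finset.card_le_card
        intro x hx
        rw [Finset.mem_filter] at hx ⊢
        have := hRN x hx.1
        exact ⟨hx.1, by omega, by omega⟩
    rw [hgN] at h6
    omega
  have hlt : ∀ i, i < k → i * c < R.card := by
    intro i hi
    have h1 : (i + 1) * c ≤ k * c := Nat.mul_le_mul_right c hi
    have h2 : (i + 1) * c = i * c + c := by ring
    omega
  choose! y hy1 hy2 using hiv
  let Y : ℕ → ℕ := fun i => y (i * c)
  have hYg : ∀ i, i < k → g (Y i) = i * c := fun i hi => hy1 _ (hlt i hi)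
  have hYN : ∀ i, i < k → Y i + 1 < N := fun i hi => hy2 _ (hlt i hi)
  have key : ∀ i j, i < j → j < k → M (Y i) + 2 * q ≤ M (Y j) := by
    intro i j hij hj
    have h1 := hYg i (by omega)
    have h2 := hYg j hj
    have h3 : i * c + c ≤ j * c := by
      have : (i + 1) * c ≤ j * c := Nat.mul_le_mul_right c hij
      have h' : (i + 1) * c = i * c + c := by ring
      omega
    have h4 : Y i ≤ Y j := by
      by_contra hcon
      have := hgmono (Y j) (Y i) (by omega)
      omega
    have h5 := prog_split R 0 (Y i) (Y j) (by omega) h4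
    have h6 := hprog (Y i) (Y j) h4 (by have := hYN j hj; omega)
    have h7 : g (Y i) = (R.filter (fun x => 0 ≤ x ∧ x < Y i)).card := rfl
    have h8 : g (Y j) = (R.filter (fun x => 0 ≤ x ∧ x < Y j)).card := rfl
    omega
  have key2 : ∀ i j, i < j → j < k → N - M (Y j) + 2 * q ≤ N - M (Y i) := by
    intro i j hij hj
    have h1 := key i j hij hj
    have h2 := (hQ (Y j) (hYN j hj)).1
    have h3 := hYN j hj
    omega
  refine ⟨(Finset.range k).image (fun i => N - M (Y i)), ?_, ?_, ?_⟩
  · intro l hl
    rw [Finset.mem_image] at hl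
    obtain ⟨i, hi, rfl⟩ := hl
    rw [Finset.mem_range] at hi
    exact (hQ (Y i) (hYN i hi)).2
  · intro a ha b hb hab
    rw [Finset.mem_image] at ha hb
    obtain ⟨i, hi, rfl⟩ := ha
    obtain ⟨j, hj, rfl⟩ := hb
    rw [Finset.mem_range] at hi hj
    rcases Nat.lt_trichotomy i j with h | h | h
    · have := key2 i j h hj
      omega
    · subst h
      exact absurd hab (lt_irrefl _)
    · exact key2 j i h hi
  · rw [Finset.card_image_of_injOn, Finset.card_range]
    intro i hi j hj hij
    have hi' : i < k := Finset.mem_range.mp hi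
    have hj' : j < k := Finset.mem_range.mp hj
    simp only at hij
    by_contra hne
    rcases Nat.lt_or_gt_of_ne hne with h | h
    · have := key2 i j h hj'
      omega
    · have := key2 j i h hi'
      omega

end Pool.Agent.Helper36.Hub
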