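import Pool.Agent.Helper36.Hub.Base
import Pool.Agent.Helper36.Hub.Ladder
import Pool.Agent.Helper36.Hub.Prog

/-!
# Many bad positions give separated cycle lengths (module HUB-8 of MP_c54260_co, Q2)
-/

set_option autoImplicit false

namespace Pool.Agent.Helper36.Hub

open Finset
open Pool.Agent.Helper36.CL (HasCyc)

variable {V : Type*}

/-- A shortcut between the positions `i < j`. -/
private def bad_rel (G : SimpleGraph V) (N : ℕ) (u : ℕ → V) (z i j : ℕ) : Prop :=
  i < j ∧ j < N ∧ j ≤ i + z ∧ ((i + 2 ≤ j ∧ G.Adj (u i) (u j)) ∨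
    (i + 3 ≤ j ∧ ∃ v, G.Adj (u i) v ∧ G.Adj v (u j) ∧
      ((∀ k < N, u k ≠ v) ∨ ∃ k ≤ j, u k = v)))

private theorem bad_left {G : SimpleGraph V} {N : ℕ} {u : ℕ → V} (hu : Cy G N u) (q z k : ℕ)
    (hq : 1 ≤ q) (R : Finset ℕ) (hR : ∀ t ∈ R, ∃ j, bad_rel G N u z t j)
    (hk : k * (6 * q + z) ≤ R.card) : SepK G q k := by
  obtain ⟨M, hM, hQ, h1, h2⟩ := exists_ladder hu
  refine extract_lengths N z q k hq M (HasCyc G) hQ R ?_ ?_ hk
  · intro t ht
    obtain ⟨j, hj, hjN, -⟩ := hR t ht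
    omega
  · refine progress_left M N z hM R ?_
    intro t ht
    obtain ⟨j, hj, hjN, hjz, h | ⟨h3, v, ha, hb, hv⟩⟩ := hR t ht
    · have := h1 t j hj hjN h.2
      have := h.1
      exact ⟨j, hj, hjN, hjz, by omega⟩
    · have := h2 t j v hj hjN ha hb hv
      exact ⟨j, hj, hjN, hjz, by omega⟩

private theorem bad_right {G : SimpleGraph V} {N : ℕ} {u : ℕ → V} (hu : Cy G N u) (q z k : ℕ)
    (hq : 1 ≤ q) (R : Finset ℕ) (hR : ∀ t ∈ R, ∃ i, bad_rel G N u z i t)
    (hk : k * (6 * q + z) ≤ R.card) : SepK G q k := by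
  obtain ⟨M, hM, hQ, h1, h2⟩ := exists_ladder hu
  have hpos : ∀ t ∈ R, 1 ≤ t := by
    intro t ht
    obtain ⟨i, hi, -⟩ := hR t ht
    omega
  have hcard : (R.image (fun t => t - 1)).card = R.card := by
    refine Finset.card_image_of_injOn ?_
    intro a ha b hb hab
    have h3 := hpos a ha
    have h4 := hpos b hb
    have h5 : a - 1 = b - 1 := hab
    omega
  have hpr := progress_right M N z hM R (by
    intro t ht
    obtain ⟨i, hi, hiN, hiz, h | ⟨h3, v, ha, hb, hv⟩⟩ := hR t ht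
    · have := h1 i t hi hiN h.2
      have := h.1
      exact ⟨i, hi, hiN, hiz, by omega⟩
    · have := h2 i t v hi hiN ha hb hv
      exact ⟨i, hi, hiN, hiz, by omega⟩)
  refine extract_lengths N z q k hq M (HasCyc G) hQ (R.image (fun t => t - 1)) ?_ ?_
    (by rw [hcard]; exact hk)
  · intro t ht
    obtain ⟨t', ht', rfl⟩ := Finset.mem_image.1 ht
    obtain ⟨i, hi, hiN, -⟩ := hR t' ht'
    show t' - 1 + 1 < N
    omega
  · intro s t hst htN
    have h3 := hpr s t hst htN
    have h4 : ((R.image (fun t => t - 1)).filter (fun x => s ≤ x ∧ x < t)).card ≤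
        (R.filter (fun x => s < x ∧ x ≤ t)).card := by
      refine Finset.card_le_card_of_injOn (fun x => x + 1) ?_ ?_
      · intro x hx
        rw [Finset.mem_coe, Finset.mem_filter, Finset.mem_image] at hx
        obtain ⟨⟨a, ha, hax⟩, hx1, hx2⟩ := hx
        have h5 := hpos a ha
        rw [Finset.mem_coe, Finset.mem_filter]
        have h6 : x + 1 = a := by omega
        show x + 1 ∈ R ∧ s < x + 1 ∧ x + 1 ≤ t
        rw [h6]
        exact ⟨ha, by omega, by omega⟩
      · intro a _ b _ hab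
        have : a + 1 = b + 1 := hab
        omega
    omega

theorem bad_lengths {G : SimpleGraph V} {N : ℕ} {u : ℕ → V} (hu : Cy G N u) (q z k : ℕ)
    (hq : 1 ≤ q) (B : Finset ℕ)
    (hB : ∀ x ∈ B, x < N ∧ ∃ y < N,
      (((x + 2 ≤ y ∧ y ≤ x + z) ∨ (y + 2 ≤ x ∧ x ≤ y + z)) ∧ G.Adj (u x) (u y)) ∨
      (((x + 3 ≤ y ∧ y ≤ x + z) ∨ (y + 3 ≤ x ∧ x ≤ y + z)) ∧
        ∃ v, G.Adj (u x) v ∧ G.Adj v (u y)))
    (hk : 4 * (k * (6 * q + z)) ≤ B.card) : SepK G q k := by
  classical
  have h3 := hu.three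
  have hmain : ∀ x ∈ B, (∃ j, bad_rel G N u z x j) ∨ (∃ i, bad_rel G N u z i x) ∨
      (∃ j, bad_rel G N (fun t => u (N - 1 - t)) z (N - 1 - x) j) ∨
      (∃ i, bad_rel G N (fun t => u (N - 1 - t)) z i (N - 1 - x)) := by
    intro x hx
    obtain ⟨hxN, y, hyN, ⟨h | h, ha⟩ | ⟨h | h, v, ha, hb⟩⟩ := hB x hx
    · exact Or.inl ⟨y, by omega, hyN, h.2, Or.inl ⟨h.1, ha⟩⟩
    · exact Or.inr (Or.inl ⟨y, by omega, hxN, h.2, Or.inl ⟨h.1, ha.symm⟩⟩)
    · by_cases hv : (∀ k < N, u k ≠ v) ∨ ∃ k ≤ y, u k = v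
      · exact Or.inl ⟨y, by omega, hyN, h.2, Or.inr ⟨h.1, v, ha, hb, hv⟩⟩
      · push Not at hv
        obtain ⟨⟨k, hkN, hkv⟩, hk2⟩ := hv
        have hky : y < k := by
          by_contra hc
          exact hk2 k (by omega) hkv
        refine Or.inr (Or.inr (Or.inr ⟨N - 1 - y, by omega, by omega, by omega,
          Or.inr ⟨by omega, v, ?_, ?_, Or.inr ⟨N - 1 - k, by omega, ?_⟩⟩⟩))
        · show G.Adj (u (N - 1 - (N - 1 - y))) v
          rw [show N - 1 - (N - 1 - y) = y by omega]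
          exact hb.symm
        · show G.Adj v (u (N - 1 - (N - 1 - x)))
          rw [show N - 1 - (N - 1 - x) = x by omega]
          exact ha.symm
        · show u (N - 1 - (N - 1 - k)) = v
          rw [show N - 1 - (N - 1 - k) = k by omega]
          exact hkv
    · by_cases hv : (∀ k < N, u k ≠ v) ∨ ∃ k ≤ x, u k = v
      · exact Or.inr (Or.inl ⟨y, by omega, hxN, h.2, Or.inr ⟨h.1, v, hb.symm, ha.symm, hv⟩⟩)
      · push Not at hv
        obtain ⟨⟨k, hkN, hkv⟩, hk2⟩ := hv
        have hky : x < k := by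
          by_contra hc
          exact hk2 k (by omega) hkv
        refine Or.inr (Or.inr (Or.inl ⟨N - 1 - y, by omega, by omega, by omega,
          Or.inr ⟨by omega, v, ?_, ?_, Or.inr ⟨N - 1 - k, by omega, ?_⟩⟩⟩))
        · show G.Adj (u (N - 1 - (N - 1 - x))) v
          rw [show N - 1 - (N - 1 - x) = x by omega]
          exact ha
        · show G.Adj v (u (N - 1 - (N - 1 - y)))
          rw [show N - 1 - (N - 1 - y) = y by omega]
          exact hb
        · show u (N - 1 - (N - 1 - k)) = v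
          rw [show N - 1 - (N - 1 - k) = k by omega]
          exact hkv
  set B1 := B.filter (fun x => ∃ j, bad_rel G N u z x j) with hB1
  set B2 := B.filter (fun x => ∃ i, bad_rel G N u z i x) with hB2
  set B3 := B.filter (fun x => ∃ j, bad_rel G N (fun t => u (N - 1 - t)) z (N - 1 - x) j) with hB3
  set B4 := B.filter (fun x => ∃ i, bad_rel G N (fun t => u (N - 1 - t)) z i (N - 1 - x)) with hB4
  have hsub : B ⊆ B1 ∪ (B2 ∪ (B3 ∪ B4)) := by
    intro x hx
    rcases hmain x hx with h | h | h | h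
    · exact Finset.mem_union_left _ (Finset.mem_filter.2 ⟨hx, h⟩)
    · exact Finset.mem_union_right _ (Finset.mem_union_left _ (Finset.mem_filter.2 ⟨hx, h⟩))
    · exact Finset.mem_union_right _ (Finset.mem_union_right _
        (Finset.mem_union_left _ (Finset.mem_filter.2 ⟨hx, h⟩)))
    · exact Finset.mem_union_right _ (Finset.mem_union_right _
        (Finset.mem_union_right _ (Finset.mem_filter.2 ⟨hx, h⟩)))
  have hc : B.card ≤ B1.card + (B2.card + (B3.card + B4.card)) := by
    refine (Finset.card_le_card hsub).trans ?_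
    refine (Finset.card_union_le _ _).trans ?_
    refine Nat.add_le_add_left ?_ _
    refine (Finset.card_union_le _ _).trans ?_
    exact Nat.add_le_add_left (Finset.card_union_le _ _) _
  have himg : ∀ S : Finset ℕ, S ⊆ B → (S.image (fun t => N - 1 - t)).card = S.card := by
    intro S hS
    refine Finset.card_image_of_injOn ?_
    intro a ha b hb hab
    have h4 := (hB a (hS ha)).1
    have h5 := (hB b (hS hb)).1
    have h6 : N - 1 - a = N - 1 - b := hab
    omega
  by_cases c1 : k * (6 * q + z) ≤ B1.card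
  · exact bad_left hu q z k hq B1 (fun t ht => (Finset.mem_filter.1 ht).2) c1
  by_cases c2 : k * (6 * q + z) ≤ B2.card
  · exact bad_right hu q z k hq B2 (fun t ht => (Finset.mem_filter.1 ht).2) c2
  by_cases c3 : k * (6 * q + z) ≤ B3.card
  · refine bad_left hu.reverse q z k hq (B3.image (fun t => N - 1 - t)) ?_
      (by rw [himg B3 (Finset.filter_subset _ _)]; exact c3)
    intro t ht
    obtain ⟨x, hx, rfl⟩ := Finset.mem_image.1 ht
    exact (Finset.mem_filter.1 hx).2
  by_cases c4 : k * (6 * q + z) ≤ B4.card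
  · refine bad_right hu.reverse q z k hq (B4.image (fun t => N - 1 - t)) ?_
      (by rw [himg B4 (Finset.filter_subset _ _)]; exact c4)
    intro t ht
    obtain ⟨x, hx, rfl⟩ := Finset.mem_image.1 ht
    exact (Finset.mem_filter.1 hx).2
  exfalso
  push Not at c1 c2 c3 c4
  omega

end Pool.Agent.Helper36.Hub
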