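import Pool.Agent.Helper36.Hub.Defs
import Pool.Agent.Helper36.CL.Cyc

/-!
# Cycles given by functions and lists (module HB-1 of MP_c54260_co, Q2)
-/

set_option autoImplicit false

namespace Pool.Agent.Helper36.Hub

open Pool.Agent.Helper36.CL (HasCyc hasCyc_of_adj)

variable {V : Type*} {G : SimpleGraph V} {N : ℕ} {u : ℕ → V}

theorem Cy.hasCyc (hu : Cy G N u) : HasCyc G N :=
  hasCyc_of_adj G N hu.three u hu.inj hu.step hu.close

theorem exists_cy (h : HasCyc G N) : ∃ u : ℕ → V, Cy G N u := by
  obtain ⟨v, p, hp, hl⟩ := h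
  have h3 := hp.three_le_length
  refine ⟨p.getVert, by omega, ?_, ?_, ?_⟩
  · intro i hi j hj h
    refine hp.getVert_injOn' ?_ ?_ h
    · show i ≤ p.length - 1
      omega
    · show j ≤ p.length - 1
      omega
  · intro i hi
    exact p.adj_getVert_succ (by omega)
  · have h1 : G.Adj (p.getVert (N - 1)) (p.getVert (N - 1 + 1)) :=
      p.adj_getVert_succ (by omega)
    have h2 : p.getVert (N - 1 + 1) = p.getVert 0 := by
      rw [show N - 1 + 1 = p.length by omega]
      simp
    rw [h2] at h1
    exact h1

theorem Cy.reverse (hu : Cy G N u) : Cy G N (fun t => u (N - 1 - t)) := by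
  have h3 := hu.three
  refine ⟨h3, ?_, ?_, ?_⟩
  · intro i hi j hj h
    have := hu.inj _ (by omega) _ (by omega) h
    omega
  · intro i hi
    have h1 := hu.step (N - 1 - (i + 1)) (by omega)
    rw [show N - 1 - (i + 1) + 1 = N - 1 - i by omega] at h1
    exact h1.symm
  · show G.Adj (u (N - 1 - (N - 1))) (u (N - 1 - 0))
    rw [Nat.sub_self, Nat.sub_zero]
    exact hu.close.symm

theorem hasCyc_of_list (l : List V) (h3 : 3 ≤ l.length) (hnd : l.Nodup)
    (hch : l.IsChain G.Adj) (hcl : ∀ x ∈ l.getLast?, ∀ y ∈ l.head?, G.Adj x y) :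
    HasCyc G l.length := by
  have hne : l ≠ [] := by
    intro h
    rw [h] at h3
    simp at h3
  have hget : ∀ i (hi : i < l.length), l.getD i (l.head hne) = l[i] := by
    intro i hi
    rw [List.getD_eq_getElem _ _ hi]
  refine hasCyc_of_adj G l.length h3 (fun i => l.getD i (l.head hne)) ?_ ?_ ?_
  · intro i hi j hj h
    simp only [hget i hi, hget j hj] at h
    exact (hnd.getElem_inj_iff).1 h
  · intro i hi
    simp only [hget i (by omega), hget (i + 1) hi]
    rw [List.isChain_iff_getElem] at hch
    exact hch i hi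
  · simp only [hget (l.length - 1) (by omega), hget 0 (by omega)]
    refine hcl _ ?_ _ ?_
    · rw [List.getLast?_eq_getElem?, List.getElem?_eq_getElem (by omega)]
      rfl
    · rw [List.head?_eq_getElem?, List.getElem?_eq_getElem (by omega)]
      rfl

/-- The vertices at the positions `a, ..., b`. -/
def seg (u : ℕ → V) (a b : ℕ) : List V := (List.range' a (b + 1 - a)).map u

theorem seg_length (a b : ℕ) : (seg u a b).length = b + 1 - a := by
  simp [seg]

theorem mem_seg {a b : ℕ} {v : V} : v ∈ seg u a b ↔ ∃ i, a ≤ i ∧ i ≤ b ∧ u i = v := by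
  simp only [seg, List.mem_map, List.mem_range'_1]
  constructor
  · rintro ⟨i, hi, rfl⟩
    exact ⟨i, by omega, by omega, rfl⟩
  · rintro ⟨i, h1, h2, rfl⟩
    exact ⟨i, by omega, rfl⟩

theorem seg_head? {a b : ℕ} (h : a ≤ b) : (seg u a b).head? = some (u a) := by
  rw [seg, show b + 1 - a = (b - a) + 1 by omega, List.range'_succ]
  rfl

theorem seg_getLast? {a b : ℕ} (h : a ≤ b) : (seg u a b).getLast? = some (u b) := by
  rw [seg, show b + 1 - a = (b - a) + 1 by omega, List.range'_concat, List.map_append]
  simp only [List.map_cons, List.map_nil, List.getLast?_append, List.getLast?_singleton]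
  rw [show a + 1 * (b - a) = b by omega]
  rfl

theorem seg_nodup (hu : Cy G N u) {a b : ℕ} (hb : b < N) : (seg u a b).Nodup := by
  refine List.Nodup.map_on ?_ List.nodup_range'
  intro i hi j hj h
  rw [List.mem_range'_1] at hi hj
  exact hu.inj i (by omega) j (by omega) h

theorem seg_chain (hu : Cy G N u) {a b : ℕ} (hb : b < N) : (seg u a b).IsChain G.Adj := by
  rw [List.isChain_iff_getElem]
  intro i hi
  rw [seg_length] at hi
  simp only [seg, List.getElem_map, List.getElem_range', one_mul]
  rw [← add_assoc]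
  exact hu.step (a + i) (by omega)

/-- gluing two lists along a connection -/
theorem chain_glue {l₁ l₂ X : List V} {a b : ℕ} (h₁ : l₁.IsChain G.Adj)
    (hl : l₁.getLast? = some (u a)) (c : Cn G u a X b) (h₂ : l₂.IsChain G.Adj)
    (hh : l₂.head? = some (u b)) : (l₁ ++ (X ++ l₂)).IsChain G.Adj := by
  unfold Cn at c
  obtain ⟨t, rfl⟩ : ∃ t, l₂ = u b :: t := by
    cases l₂ with
    | nil => simp at hh
    | cons y t => exact ⟨t, by simpa using hh⟩
  rw [List.isChain_append]
  refine ⟨h₁, ?_, ?_⟩
  · have c2 : (X ++ [u b]).IsChain G.Adj := List.IsChain.of_cons c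
    rw [List.isChain_append] at c2 ⊢
    refine ⟨c2.1, h₂, ?_⟩
    simpa using c2.2.2
  · intro x hx y hy
    rw [hl] at hx
    have hx' : u a = x := by simpa using hx
    subst hx'
    cases X with
    | nil =>
      have : u b = y := by simpa using hy
      subst this
      simpa using c
    | cons z t' =>
      have : z = y := by simpa using hy
      subst this
      rw [List.cons_append, List.isChain_cons_cons] at c
      exact c.1

theorem Cn.symm {a b : ℕ} {X : List V} (c : Cn G u a X b) : Cn G u b X.reverse a := by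
  unfold Cn at c ⊢
  have h := (List.isChain_reverse (R := fun x y => G.Adj y x) (l := u a :: (X ++ [u b]))).2 ?_
  · have e : (u a :: (X ++ [u b])).reverse = u b :: (X.reverse ++ [u a]) := by
      simp
    rw [e] at h
    exact h.imp (fun _ _ h => h.symm)
  · exact c.imp (fun _ _ h => h)

end Pool.Agent.Helper36.Hub
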