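import Pool.Agent.Helper36.Hub.Base

set_option autoImplicit false

namespace Pool.Agent.Helper36.Hub

open Finset
open Pool.Agent.Helper36.CL (HasCyc)

variable {V : Type*}

/-- at least `k * P.card` ordered pairs of distinct equal-valued elements -/
private theorem count1_pairs {α : Type*} [DecidableEq α] (k : ℕ) (P : Finset ℕ) (f : ℕ → α)
    (hfib : ∀ i ∈ P, k + 1 ≤ (P.filter (fun j => f j = f i)).card) :
    k * P.card ≤ ((P ×ˢ P).filter (fun x => f x.1 = f x.2 ∧ x.1 ≠ x.2)).card := by
  classical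
  have h1 : ((P ×ˢ P).filter (fun x => f x.1 = f x.2 ∧ x.1 ≠ x.2)).card
      = ∑ i ∈ P, (((P ×ˢ P).filter (fun x => f x.1 = f x.2 ∧ x.1 ≠ x.2)).filter
          (fun x => x.1 = i)).card := by
    refine Finset.card_eq_sum_card_fiberwise ?_
    intro x hx
    have hx' := Finset.mem_coe.1 hx
    rw [Finset.mem_filter, Finset.mem_product] at hx'
    exact Finset.mem_coe.2 hx'.1.1
  rw [h1, mul_comm, ← smul_eq_mul]
  refine Finset.card_nsmul_le_sum P _ k ?_
  intro i hi
  have h2 := hfib i hi
  have h3 : ((P.filter (fun j => f j = f i)).erase i).card + 1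
      = (P.filter (fun j => f j = f i)).card := by
    refine Finset.card_erase_add_one ?_
    rw [Finset.mem_filter]
    exact ⟨hi, rfl⟩
  have h4 : ((P.filter (fun j => f j = f i)).erase i).card ≤
      (((P ×ˢ P).filter (fun x => f x.1 = f x.2 ∧ x.1 ≠ x.2)).filter
          (fun x => x.1 = i)).card := by
    refine Finset.card_le_card_of_injOn (fun j => (i, j)) ?_ ?_
    · intro j hj
      have hj' := Finset.mem_coe.1 hj
      rw [Finset.mem_erase, Finset.mem_filter] at hj'
      obtain ⟨hji, hjP, hjf⟩ := hj'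
      refine Finset.mem_coe.2 ?_
      rw [Finset.mem_filter, Finset.mem_filter, Finset.mem_product]
      exact ⟨⟨⟨hi, hjP⟩, hjf.symm, fun h => hji h.symm⟩, rfl⟩
    · intro j _ j' _ h
      exact (Prod.mk.inj h).2
  omega

private theorem count1_swap {α : Type*} [DecidableEq α] (z : ℕ) (P : Finset ℕ) (f : ℕ → α) :
    ((P ×ˢ P).filter (fun x => f x.1 = f x.2 ∧ x.2 / z < x.1 / z)).card ≤
      ((P ×ˢ P).filter (fun x => f x.1 = f x.2 ∧ x.1 / z < x.2 / z)).card := by
  classical
  refine Finset.card_le_card_of_injOn Prod.swap ?_ ?_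
  · intro x hx
    have hx' := Finset.mem_coe.1 hx
    rw [Finset.mem_filter, Finset.mem_product] at hx'
    refine Finset.mem_coe.2 ?_
    rw [Finset.mem_filter, Finset.mem_product]
    exact ⟨⟨hx'.1.2, hx'.1.1⟩, hx'.2.1.symm, hx'.2.2⟩
  · intro x _ y _ h
    exact Prod.swap_injective h

theorem count1 {α : Type*} [DecidableEq α] (N z k m : ℕ) (P : Finset ℕ) (f : ℕ → α)
    (hz : 0 < z) (hP : ∀ i ∈ P, i < N)
    (hsib : ∀ i ∈ P, ∀ j ∈ P, i / z = j / z → f i = f j → i = j)
    (hfib : ∀ i ∈ P, k + 1 ≤ (P.filter (fun j => f j = f i)).card)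
    (hm : N / z + 1 ≤ m)
    (hbig : 2 * (3 * (m * m) + z * (2 * m)) < k * P.card) :
    ∃ E : Finset (ℕ × ℕ), 2 * m < E.card ∧ (∀ e ∈ E, e.1 < e.2 ∧ e.2 < m) ∧
      ∀ e ∈ E, 4 ≤ ((P ×ˢ P).filter
        (fun x => f x.1 = f x.2 ∧ x.1 / z = e.1 ∧ x.2 / z = e.2)).card := by
  classical
  set Q : Finset (ℕ × ℕ) := (P ×ˢ P).filter (fun x => f x.1 = f x.2 ∧ x.1 / z < x.2 / z) with hQ
  set cell : ℕ × ℕ → ℕ × ℕ := fun x => (x.1 / z, x.2 / z) with hcell
  have hQmem : ∀ x, x ∈ Q ↔ (x.1 ∈ P ∧ x.2 ∈ P) ∧ f x.1 = f x.2 ∧ x.1 / z < x.2 / z := by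
    intro x
    rw [hQ, Finset.mem_filter, Finset.mem_product]
  have hzone : ∀ i ∈ P, i / z < m := by
    intro i hi
    have h1 : i / z ≤ N / z := Nat.div_le_div_right (hP i hi).le
    omega
  -- number of pairs
  have hQcard : k * P.card ≤ 2 * Q.card := by
    have h1 := count1_pairs k P f hfib
    have h2 : (P ×ˢ P).filter (fun x => f x.1 = f x.2 ∧ x.1 ≠ x.2) ⊆
        Q ∪ (P ×ˢ P).filter (fun x => f x.1 = f x.2 ∧ x.2 / z < x.1 / z) := by
      intro x hx
      rw [Finset.mem_filter, Finset.mem_product] at hx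
      obtain ⟨⟨hx1, hx2⟩, hxf, hxne⟩ := hx
      have hne : x.1 / z ≠ x.2 / z := fun h => hxne (hsib _ hx1 _ hx2 h hxf)
      rw [Finset.mem_union]
      rcases lt_or_gt_of_ne hne with h | h
      · left
        rw [hQmem]
        exact ⟨⟨hx1, hx2⟩, hxf, h⟩
      · right
        rw [Finset.mem_filter, Finset.mem_product]
        exact ⟨⟨hx1, hx2⟩, hxf, h⟩
    have h3 := Finset.card_le_card h2
    have h4 := Finset.card_union_le Q
      ((P ×ˢ P).filter (fun x => f x.1 = f x.2 ∧ x.2 / z < x.1 / z))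
    have h5 := count1_swap z P f
    rw [← hQ] at h5
    omega
  -- cells
  set C : Finset (ℕ × ℕ) := Q.image cell with hC
  have hCsub : C ⊆ Finset.range m ×ˢ Finset.range m := by
    intro e he
    rw [hC, Finset.mem_image] at he
    obtain ⟨x, hx, rfl⟩ := he
    rw [hQmem] at hx
    rw [Finset.mem_product, Finset.mem_range, Finset.mem_range]
    exact ⟨hzone _ hx.1.1, hzone _ hx.1.2⟩
  have hCcard : C.card ≤ m * m := by
    have h1 := Finset.card_le_card hCsub
    rw [Finset.card_product, Finset.card_range] at h1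
    exact h1
  have hfibz : ∀ e ∈ C, (Q.filter (fun x => cell x = e)).card ≤ z := by
    intro e _
    have h1 : (Q.filter (fun x => cell x = e)).card ≤ (Finset.Ico (e.1 * z) (e.1 * z + z)).card := by
      refine Finset.card_le_card_of_injOn (fun x => x.1) ?_ ?_
      · intro x hx
        have hx' := Finset.mem_coe.1 hx
        rw [Finset.mem_filter, hQmem] at hx'
        obtain ⟨_, hxe⟩ := hx'
        have h2 : x.1 / z = e.1 := by
          rw [← hxe]
        refine Finset.mem_coe.2 ?_
        rw [Finset.mem_Ico]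
        have h3 := Nat.div_add_mod x.1 z
        have h4 := Nat.mod_lt x.1 hz
        rw [h2] at h3
        have h5 : e.1 * z = z * e.1 := mul_comm _ _
        constructor
        · show e.1 * z ≤ x.1
          omega
        · show x.1 < e.1 * z + z
          omega
      · intro x hx y hy hxy
        have hx' := Finset.mem_coe.1 hx
        have hy' := Finset.mem_coe.1 hy
        rw [Finset.mem_filter, hQmem] at hx' hy'
        obtain ⟨⟨⟨hx1, hx2⟩, hxf, _⟩, hxe⟩ := hx'
        obtain ⟨⟨⟨hy1, hy2⟩, hyf, _⟩, hye⟩ := hy'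
        have hxy' : x.1 = y.1 := hxy
        have h2 : x.2 / z = y.2 / z := by
          have h3 : cell x = cell y := by rw [hxe, hye]
          exact (Prod.mk.inj h3).2
        have h4 : x.2 = y.2 := by
          refine hsib _ hx2 _ hy2 h2 ?_
          rw [← hxf, ← hyf, hxy']
        exact Prod.ext hxy' h4
    rw [Nat.card_Ico] at h1
    omega
  set E : Finset (ℕ × ℕ) := C.filter (fun e => 4 ≤ (Q.filter (fun x => cell x = e)).card) with hE
  have hsum : Q.card = ∑ e ∈ C, (Q.filter (fun x => cell x = e)).card :=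
    Finset.card_eq_sum_card_image cell Q
  have hsplit : ∑ e ∈ C, (Q.filter (fun x => cell x = e)).card ≤ E.card * z + C.card * 3 := by
    rw [← Finset.sum_filter_add_sum_filter_not C
      (fun e => 4 ≤ (Q.filter (fun x => cell x = e)).card)]
    refine Nat.add_le_add ?_ ?_
    · rw [← hE, ← smul_eq_mul]
      refine Finset.sum_le_card_nsmul E _ z ?_
      intro e he
      exact hfibz e (Finset.filter_subset _ _ he)
    · have h1 : ∑ e ∈ C.filter (fun e => ¬ 4 ≤ (Q.filter (fun x => cell x = e)).card),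
          (Q.filter (fun x => cell x = e)).card ≤
          (C.filter (fun e => ¬ 4 ≤ (Q.filter (fun x => cell x = e)).card)).card • 3 := by
        refine Finset.sum_le_card_nsmul _ _ 3 ?_
        intro e he
        have h2 := (Finset.mem_filter.1 he).2
        omega
      have h3 : (C.filter (fun e => ¬ 4 ≤ (Q.filter (fun x => cell x = e)).card)).card ≤ C.card :=
        Finset.card_le_card (Finset.filter_subset _ _)
      rw [smul_eq_mul] at h1
      exact h1.trans (Nat.mul_le_mul_right 3 h3)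
  refine ⟨E, ?_, ?_, ?_⟩
  · by_contra hcon
    have hcon' : E.card ≤ 2 * m := by omega
    have h1 : E.card * z ≤ z * (2 * m) := by
      rw [mul_comm z (2 * m)]
      exact Nat.mul_le_mul_right z hcon'
    omega
  · intro e he
    have he' : e ∈ C := Finset.filter_subset _ _ he
    rw [hC, Finset.mem_image] at he'
    obtain ⟨x, hx, rfl⟩ := he'
    rw [hQmem] at hx
    exact ⟨hx.2.2, hzone _ hx.1.2⟩
  · intro e he
    have h1 : 4 ≤ (Q.filter (fun x => cell x = e)).card := (Finset.mem_filter.1 he).2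
    refine h1.trans (Finset.card_le_card ?_)
    intro x hx
    rw [Finset.mem_filter, hQmem] at hx
    obtain ⟨⟨hxP, hxf, _⟩, hxe⟩ := hx
    rw [Finset.mem_filter, Finset.mem_product]
    refine ⟨hxP, hxf, ?_, ?_⟩
    · rw [← hxe]
    · rw [← hxe]

end Pool.Agent.Helper36.Hub
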