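import Pool.Agent.Helper36.Hub.Base

set_option autoImplicit false

namespace Pool.Agent.Helper36.Hub

open Finset
open Pool.Agent.Helper36.CL (HasCyc)

variable {V : Type*}

theorem exists_mod_three (T : Finset ℕ) :
    ∃ c, T.card ≤ 3 * (T.filter (fun i => i % 3 = c)).card := by
  have h : T.card = ∑ c ∈ Finset.range 3, (T.filter (fun i => i % 3 = c)).card :=
    Finset.card_eq_sum_card_fiberwise (fun i _ => by
      simp only [Finset.coe_range, Set.mem_Iio]
      exact Nat.mod_lt _ (by norm_num))
  by_contra hcon
  push Not at hcon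
  have h0 := hcon 0
  have h1 := hcon 1
  have h2 := hcon 2
  rw [Finset.sum_range_succ, Finset.sum_range_succ, Finset.sum_range_succ,
    Finset.sum_range_zero] at h
  omega

theorem exists_drop {α : Type*} [DecidableEq α] (T : Finset ℕ) (f : ℕ → α) (k : ℕ) :
    ∃ P ⊆ T, (∀ i ∈ P, k ≤ (P.filter (fun j => f j = f i)).card) ∧
      T.card ≤ P.card + k * (T.image f).card := by
  classical
  refine ⟨T.filter (fun i => k ≤ (T.filter (fun j => f j = f i)).card),
    Finset.filter_subset _ _, ?_, ?_⟩
  · intro i hi
    have hi2 := (Finset.mem_filter.1 hi).2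
    refine hi2.trans (Finset.card_le_card ?_)
    intro j hj
    obtain ⟨hjT, hji⟩ := Finset.mem_filter.1 hj
    refine Finset.mem_filter.2 ⟨Finset.mem_filter.2 ⟨hjT, ?_⟩, hji⟩
    rw [hji]
    exact hi2
  · have hsplit := Finset.card_filter_add_card_filter_not (s := T)
      (fun i => k ≤ (T.filter (fun j => f j = f i)).card)
    have hD : (T.filter (fun i => ¬ k ≤ (T.filter (fun j => f j = f i)).card)).card
        ≤ k * (T.image f).card := by
      refine Finset.card_le_mul_card_image_of_maps_to (f := f) ?_ k ?_
      · intro i hi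
        exact Finset.mem_image_of_mem f (Finset.mem_filter.1 hi).1
      · intro b _
        by_cases hne : ((T.filter (fun i => ¬ k ≤ (T.filter (fun j => f j = f i)).card)).filter
            (fun i => f i = b)).Nonempty
        · obtain ⟨i, hi⟩ := hne
          obtain ⟨hi1, hib⟩ := Finset.mem_filter.1 hi
          have hik := (Finset.mem_filter.1 hi1).2
          have hle : ((T.filter (fun i => ¬ k ≤ (T.filter (fun j => f j = f i)).card)).filter
            (fun i => f i = b)).card ≤ (T.filter (fun j => f j = f i)).card := by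
            refine Finset.card_le_card ?_
            intro j hj
            obtain ⟨hj1, hjb⟩ := Finset.mem_filter.1 hj
            exact Finset.mem_filter.2 ⟨(Finset.mem_filter.1 hj1).1, by rw [hjb, hib]⟩
          omega
        · rw [Finset.not_nonempty_iff_eq_empty] at hne
          rw [hne, Finset.card_empty]
          exact Nat.zero_le _
    omega

private theorem sel_card (Z : Finset ℕ) (x y : ℕ) (hx : x ∈ Z) (hy : y ∈ Z) (hxy : x ≠ y) :
    2 ^ Z.card ≤ 4 * (Z.powerset.filter (fun R => x ∈ R ∧ y ∉ R)).card := by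
  classical
  have hyx : y ∈ Z.erase x := Finset.mem_erase.2 ⟨fun h => hxy h.symm, hy⟩
  have hc : ((Z.erase x).erase y).card + 2 = Z.card := by
    have h1 := Finset.card_erase_add_one hyx
    have h2 := Finset.card_erase_add_one hx
    omega
  have hle : (((Z.erase x).erase y).powerset).card
      ≤ (Z.powerset.filter (fun R => x ∈ R ∧ y ∉ R)).card := by
    refine Finset.card_le_card_of_injOn (fun R => insert x R) ?_ ?_
    · intro R hR
      have hR' : R ⊆ (Z.erase x).erase y := Finset.mem_powerset.1 (Finset.mem_coe.1 hR)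
      refine Finset.mem_coe.2 (Finset.mem_filter.2 ⟨Finset.mem_powerset.2 ?_, ?_, ?_⟩)
      · intro z hz
        rcases Finset.mem_insert.1 hz with h | h
        · rw [h]; exact hx
        · exact Finset.mem_of_mem_erase (Finset.mem_of_mem_erase (hR' h))
      · exact Finset.mem_insert_self _ _
      · intro h
        rcases Finset.mem_insert.1 h with h | h
        · exact hxy h.symm
        · exact (Finset.mem_erase.1 (hR' h)).1 rfl
    · intro R hR R' hR' h
      have hRs : R ⊆ (Z.erase x).erase y := Finset.mem_powerset.1 (Finset.mem_coe.1 hR)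
      have hRs' : R' ⊆ (Z.erase x).erase y := Finset.mem_powerset.1 (Finset.mem_coe.1 hR')
      have hxR : x ∉ R := fun hh =>
        (Finset.mem_erase.1 (Finset.mem_of_mem_erase (hRs hh))).1 rfl
      have hxR' : x ∉ R' := fun hh =>
        (Finset.mem_erase.1 (Finset.mem_of_mem_erase (hRs' hh))).1 rfl
      have h' : insert x R = insert x R' := h
      rw [← Finset.erase_insert hxR, ← Finset.erase_insert hxR', h']
  rw [Finset.card_powerset] at hle
  rw [← hc, pow_add]
  omega

theorem exists_colouring (T : Finset ℕ) (a b : ℕ → ℕ) (hab : ∀ i ∈ T, a i ≠ b i) :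
    ∃ R : Finset ℕ, T.card ≤ 4 * (T.filter (fun i => a i ∈ R ∧ b i ∉ R)).card := by
  classical
  by_contra hcon
  push Not at hcon
  set Z := T.image a ∪ T.image b with hZ
  have hswap : ∑ R ∈ Z.powerset, (T.filter (fun i => a i ∈ R ∧ b i ∉ R)).card
      = ∑ i ∈ T, (Z.powerset.filter (fun R => a i ∈ R ∧ b i ∉ R)).card := by
    simp only [Finset.card_filter]
    exact Finset.sum_comm
  have hlow : T.card * 2 ^ Z.card
      ≤ 4 * ∑ i ∈ T, (Z.powerset.filter (fun R => a i ∈ R ∧ b i ∉ R)).card := by
    rw [Finset.mul_sum, ← smul_eq_mul, ← Finset.sum_const]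
    refine Finset.sum_le_sum ?_
    intro i hi
    exact sel_card Z (a i) (b i)
      (Finset.mem_union_left _ (Finset.mem_image_of_mem a hi))
      (Finset.mem_union_right _ (Finset.mem_image_of_mem b hi)) (hab i hi)
  have hup : 4 * ∑ R ∈ Z.powerset, (T.filter (fun i => a i ∈ R ∧ b i ∉ R)).card
      < T.card * 2 ^ Z.card := by
    rw [Finset.mul_sum]
    have h1 : T.card * 2 ^ Z.card = ∑ _R ∈ Z.powerset, T.card := by
      rw [Finset.sum_const, Finset.card_powerset, smul_eq_mul, mul_comm]
    rw [h1]
    exact Finset.sum_lt_sum_of_nonempty ⟨∅, Finset.empty_mem_powerset _⟩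
      (fun R _ => hcon R)
  rw [hswap] at hup
  omega

end Pool.Agent.Helper36.Hub
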