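import Pool.Agent.Helper36.Hub.CrossCells
import Pool.Agent.Helper36.Hub.Bad
import Pool.Agent.Helper36.Hub.Sel
import Pool.Agent.Helper36.Hub.Count1

/-!
# Case 1 of the step lemma: many positions whose hub is off the cycle
-/

set_option autoImplicit false

namespace Pool.Agent.Helper36.Hub

open Finset
open Pool.Agent.Helper36.CL (HasCyc)

variable {V : Type*}

/-- from a cell with four sibling pairs one gets a band avoiding two given vertices -/
theorem band_of_cell {G : SimpleGraph V} [DecidableEq V] {N z : ℕ} {u : ℕ → V}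
    (hz : 0 < z) (P : Finset ℕ) (f : ℕ → V) (c : ℕ)
    (hP : ∀ i ∈ P, i < N ∧ G.Adj (u i) (f i) ∧ ∀ k < N, u k ≠ f i)
    (hc : ∀ i ∈ P, i % 3 = c)
    (hsib : ∀ i ∈ P, ∀ j ∈ P, i / z = j / z → f i = f j → i = j)
    (e : ℕ × ℕ) (he : e.1 < e.2)
    (h4 : 4 ≤ ((P ×ˢ P).filter
        (fun x => f x.1 = f x.2 ∧ x.1 / z = e.1 ∧ x.2 / z = e.2)).card)
    (F : List V) (hF : F.length ≤ 2) :
    ∃ p p' r r' : ℕ, ∃ X X' : List V,
      Band G u z p p' r r' X X' ∧ r' < N ∧ p / z = e.1 ∧ p' / z = e.1 ∧ r / z = e.2 ∧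
      r' / z = e.2 ∧ (X ++ X').length ≤ 2 ∧ (X ++ X').Nodup ∧
      ∀ v ∈ X ++ X', v ∉ F ∧ ∀ i < N, u i ≠ v := by
  classical
  set Q := (P ×ˢ P).filter
    (fun x => f x.1 = f x.2 ∧ x.1 / z = e.1 ∧ x.2 / z = e.2) with hQ
  have hQm : ∀ x ∈ Q, x.1 ∈ P ∧ x.2 ∈ P ∧ f x.1 = f x.2 ∧ x.1 / z = e.1 ∧ x.2 / z = e.2 := by
    intro x hx
    obtain ⟨h1, h2, h3, h5⟩ := Finset.mem_filter.1 hx
    exact ⟨(Finset.mem_product.1 h1).1, (Finset.mem_product.1 h1).2, h2, h3, h5⟩
  have hinj : Set.InjOn (fun x : ℕ × ℕ => f x.1) (Q : Set (ℕ × ℕ)) := by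
    intro x hx y hy hxy
    obtain ⟨a1, a2, a3, a4, a5⟩ := hQm x hx
    obtain ⟨b1, b2, b3, b4, b5⟩ := hQm y hy
    have hxy' : f x.1 = f y.1 := hxy
    have e1 : x.1 = y.1 := hsib _ a1 _ b1 (a4.trans b4.symm) hxy'
    have e2 : x.2 = y.2 := hsib _ a2 _ b2 (a5.trans b5.symm) (by rw [← a3, hxy', b3])
    exact Prod.ext e1 e2
  have hcard : 2 ≤ ((Q.image (fun x => f x.1)) \ F.toFinset).card := by
    have h1 := Finset.le_card_sdiff F.toFinset (Q.image (fun x => f x.1))
    have h2 : (Q.image (fun x => f x.1)).card = Q.card := Finset.card_image_of_injOn hinj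
    have h3 : F.toFinset.card ≤ 2 := (List.toFinset_card_le F).trans hF
    omega
  obtain ⟨v, hv, w, hw, hvw⟩ := Finset.one_lt_card.1 (by omega :
    1 < ((Q.image (fun x => f x.1)) \ F.toFinset).card)
  obtain ⟨hv1, hv2⟩ := Finset.mem_sdiff.1 hv
  obtain ⟨hw1, hw2⟩ := Finset.mem_sdiff.1 hw
  obtain ⟨x, hx, hxv⟩ := Finset.mem_image.1 hv1
  obtain ⟨y, hy, hyw⟩ := Finset.mem_image.1 hw1
  have hvF : v ∉ F := fun h => hv2 (List.mem_toFinset.2 h)
  have hwF : w ∉ F := fun h => hw2 (List.mem_toFinset.2 h)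
  -- wlog x.1 < y.1
  have key : ∀ x ∈ Q, ∀ y ∈ Q, f x.1 ∉ F → f y.1 ∉ F → x.1 < y.1 →
      ∃ p p' r r' : ℕ, ∃ X X' : List V,
      Band G u z p p' r r' X X' ∧ r' < N ∧ p / z = e.1 ∧ p' / z = e.1 ∧ r / z = e.2 ∧
      r' / z = e.2 ∧ (X ++ X').length ≤ 2 ∧ (X ++ X').Nodup ∧
      ∀ v ∈ X ++ X', v ∉ F ∧ ∀ i < N, u i ≠ v := by
    intro x hx y hy hxF hyF hlt
    obtain ⟨a1, a2, a3, a4, a5⟩ := hQm x hx
    obtain ⟨b1, b2, b3, b4, b5⟩ := hQm y hy
    obtain ⟨p1, p2, p3⟩ := hP _ a1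
    obtain ⟨q1, q2, q3⟩ := hP _ a2
    obtain ⟨r1, r2, r3⟩ := hP _ b1
    obtain ⟨s1, s2, s3⟩ := hP _ b2
    have hf : f x.1 ≠ f y.1 := by
      intro h
      have := hsib _ a1 _ b1 (a4.trans b4.symm) h
      omega
    have hf2 : x.2 ≠ y.2 := by
      intro h
      apply hf
      rw [a3, b3, h]
    have m1 := hc _ a1
    have m2 := hc _ a2
    have m3 := hc _ b1
    have m4 := hc _ b2
    have cx : Cn G u x.1 [f x.1] x.2 := by
      refine List.isChain_cons_cons.2 ⟨p2, List.isChain_cons_cons.2 ⟨?_, List.isChain_singleton _⟩⟩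
      rw [a3]
      exact q2.symm
    have cy : Cn G u y.1 [f y.1] y.2 := by
      refine List.isChain_cons_cons.2 ⟨r2, List.isChain_cons_cons.2 ⟨?_, List.isChain_singleton _⟩⟩
      rw [b3]
      exact s2.symm
    have hgap1 : x.1 + 3 ≤ y.1 := by omega
    have hlt2 : y.1 < x.2 := by
      by_contra hcon
      have : x.2 / z ≤ y.1 / z := Nat.div_le_div_right (by omega)
      omega
    have hlt3 : y.1 < y.2 := by
      by_contra hcon
      have : y.2 / z ≤ y.1 / z := Nat.div_le_div_right (by omega)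
      omega
    -- sizes
    have dv : ∀ a b : ℕ, a / z = b / z → a ≤ b → b ≤ a + z := by
      intro a b hab _
      have h1 := Nat.div_add_mod a z
      have h2 := Nat.div_add_mod b z
      have h3 := Nat.mod_lt b hz
      rw [hab] at h1
      omega
    have hd1 := dv x.1 y.1 (a4.trans b4.symm) hlt.le
    have hmem : ∀ v ∈ [f x.1] ++ [f y.1], v ∉ F ∧ ∀ i < N, u i ≠ v := by
      intro v hv
      simp only [List.cons_append, List.nil_append, List.mem_cons, List.not_mem_nil,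
        or_false] at hv
      rcases hv with rfl | rfl
      · exact ⟨hxF, p3⟩
      · exact ⟨hyF, r3⟩
    rcases lt_or_gt_of_ne hf2 with h | h
    · have hd2 := dv x.2 y.2 (a5.trans b5.symm) h.le
      refine ⟨x.1, y.1, x.2, y.2, [f x.1], [f y.1], ⟨hlt, hlt2, h, ?_, ?_, Or.inl ⟨cx, cy⟩⟩, s1,
        a4, b4, a5, b5, by simp, by simpa using hf, hmem⟩
      · simp only [List.length_cons, List.length_nil]
        omega
      · omega
    · have hd2 := dv y.2 x.2 (b5.trans a5.symm) h.le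
      refine ⟨x.1, y.1, y.2, x.2, [f x.1], [f y.1], ⟨hlt, hlt3, h, ?_, ?_, Or.inr ⟨cx, cy⟩⟩, q1,
        a4, b4, b5, a5, by simp, by simpa using hf, hmem⟩
      · simp only [List.length_cons, List.length_nil]
        omega
      · omega
  have hne : x.1 ≠ y.1 := by
    intro h
    apply hvw
    rw [← hxv, ← hyw]
    show f x.1 = f y.1
    rw [h]
  rcases lt_or_gt_of_ne hne with h | h
  · exact key x hx y hy (by rw [hxv]; exact hvF) (by rw [hyw]; exact hwF) h
  · exact key y hy x hx (by rw [hyw]; exact hwF) (by rw [hxv]; exact hvF) h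

theorem case1 {G : SimpleGraph V} {N : ℕ} {u : ℕ → V} (hu : Cy G N u) (n q : ℕ)
    (hq1 : q * q ≤ n) (hq2 : n < (q + 1) * (q + 1)) (hqD : 10000 ≤ q) (hNn : N ≤ n)
    (T : Finset ℕ) (f : ℕ → V) [DecidableEq V]
    (hT : ∀ i ∈ T, i < N ∧ G.Adj (u i) (f i) ∧ ∀ k < N, u k ≠ f i)
    (hc : 1000000 * (T.image f).card ≤ n) (hTc : n ≤ 3 * T.card) :
    SepK G q (q / 1584) ∨ Red G N (60 * q) := by
  classical
  set z := 60 * q with hz
  set B := T.filter (fun i => ∃ j ∈ T, ((i + 3 ≤ j ∧ j ≤ i + z) ∨ (j + 3 ≤ i ∧ i ≤ j + z)) ∧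
    f i = f j) with hB
  by_cases hbad : n ≤ 6 * B.card
  · left
    refine bad_lengths hu q z (q / 1584) (by omega) B ?_ ?_
    · intro x hx
      obtain ⟨hxT, y, hyT, hxy, hf⟩ := Finset.mem_filter.1 hx
      obtain ⟨x1, x2, x3⟩ := hT x hxT
      obtain ⟨y1, y2, y3⟩ := hT y hyT
      refine ⟨x1, y, y1, Or.inr ⟨hxy, f x, x2, ?_⟩⟩
      rw [hf]
      exact y2.symm
    · have h1 : q / 1584 * 1584 ≤ q := Nat.div_mul_le_self q 1584
      have h2 : 1584 * (q / 1584) * q ≤ q * q := Nat.mul_le_mul_right _ (by omega)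
      have h3 : 6 * (4 * (q / 1584 * (6 * q + z))) = 1584 * (q / 1584) * q := by
        rw [hz]; ring
      omega
  · right
    push Not at hbad
    obtain ⟨c, hc3⟩ := exists_mod_three (T \ B)
    set T3 := (T \ B).filter (fun i => i % 3 = c) with hT3
    obtain ⟨P, hPT, hPf, hPc⟩ := exists_drop T3 f 2000
    have hT3T : ∀ i ∈ T3, i ∈ T ∧ i ∉ B ∧ i % 3 = c := by
      intro i hi
      obtain ⟨h1, h2⟩ := Finset.mem_filter.1 hi
      exact ⟨(Finset.mem_sdiff.1 h1).1, (Finset.mem_sdiff.1 h1).2, h2⟩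
    have hsub : (T3.image f).card ≤ (T.image f).card :=
      Finset.card_le_card (Finset.image_subset_image (fun i hi => (hT3T i hi).1))
    have hTB : T.card ≤ (T \ B).card + B.card := by
      have := Finset.le_card_sdiff B T
      omega
    have hz0 : 0 < z := by omega
    have dv : ∀ a b : ℕ, a / z = b / z → a ≤ b → b ≤ a + z := by
      intro a b hab _
      have h1 := Nat.div_add_mod a z
      have h2 := Nat.div_add_mod b z
      have h3 := Nat.mod_lt b hz0
      rw [hab] at h1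
      omega
    have hsib : ∀ i ∈ P, ∀ j ∈ P, i / z = j / z → f i = f j → i = j := by
      intro i hi j hj hij hf
      obtain ⟨i1, i2, i3⟩ := hT3T i (hPT hi)
      obtain ⟨j1, j2, j3⟩ := hT3T j (hPT hj)
      by_contra hne
      apply i2
      refine Finset.mem_filter.2 ⟨i1, j, j1, ?_, hf⟩
      rcases lt_or_gt_of_ne hne with h | h
      · left
        exact ⟨by omega, dv i j hij h.le⟩
      · right
        exact ⟨by omega, dv j i hij.symm h.le⟩
    -- numerics
    have hqq : 10000 * q ≤ q * q := Nat.mul_le_mul_right _ hqD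
    have hm : N / z + 1 ≤ q / 50 := by
      have h1 : N / z ≤ (q * q + 2 * q) / z := Nat.div_le_div_right (by nlinarith)
      have h2 : (q * q + 2 * q) / z = (q + 2) / 60 := by
        rw [hz, show q * q + 2 * q = (q + 2) * q by ring, Nat.mul_div_mul_right _ _ (by omega)]
      omega
    have hbig : 2 * (3 * (q / 50 * (q / 50)) + z * (2 * (q / 50))) < 1999 * P.card := by
      have h1 : q / 50 * 50 ≤ q := Nat.div_mul_le_self q 50
      set m := q / 50 with hmdef
      have h2 : m * m ≤ m * q := Nat.mul_le_mul_left _ (by omega)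
      have h3 : m * q * 50 ≤ q * q := by nlinarith
      have h4 : z * (2 * m) = 120 * (m * q) := by rw [hz]; ring
      omega
    obtain ⟨E, hEc, hE1, hE2⟩ := count1 N z 1999 (q / 50) P f hz0
      (fun i hi => (hT i (hT3T i (hPT hi)).1).1) hsib hPf hm hbig
    refine cross_cells hu (fun t => t / z) (fun a b hab => Nat.div_le_div_right hab) (q / 50) E
      hE1 hEc ?_
    intro e he F hF
    exact band_of_cell hz0 P f c (fun i hi => hT i (hT3T i (hPT hi)).1)
      (fun i hi => (hT3T i (hPT hi)).2.2) hsib e (hE1 e he).1 (hE2 e he) F hF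

end Pool.Agent.Helper36.Hub
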