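import Pool.Agent.Helper36.Hub.Base

/-!
# Labels and many rich cells (module HUB-11 of MP_c54260_co, Q2; Case 2 counting)
-/

set_option autoImplicit false

namespace Pool.Agent.Helper36.Hub

open Finset
open Pool.Agent.Helper36.CL (HasCyc)

theorem count2_cnt_mono (P : Finset ℕ) (g : ℕ → ℕ) :
    Monotone (fun t => (P.filter (fun i => g i < t)).card) := by
  intro a b hab
  apply card_le_card
  intro i hi
  rw [mem_filter] at hi ⊢
  exact ⟨hi.1, lt_of_lt_of_le hi.2 hab⟩

theorem count2_split (z s : ℕ) (f : ℕ → ℕ) (hf : Monotone f) (t t' : ℕ)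
    (h : t / z + f t / s = t' / z + f t' / s) : t / z = t' / z ∧ f t / s = f t' / s := by
  rcases le_total t t' with h1 | h1
  · have h2 : t / z ≤ t' / z := Nat.div_le_div_right h1
    have h3 : f t / s ≤ f t' / s := Nat.div_le_div_right (hf h1)
    omega
  · have h2 : t' / z ≤ t / z := Nat.div_le_div_right h1
    have h3 : f t' / s ≤ f t / s := Nat.div_le_div_right (hf h1)
    omega

theorem count2_hub (s k : ℕ) (hs : 0 < s) (hk : 0 < k) (P : Finset ℕ) (g : ℕ → ℕ)
    (hfib : ∀ i ∈ P, k ≤ (P.filter (fun j => g j = g i)).card) (H : Finset ℕ)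
    (hH : H ⊆ P.image g)
    (hq : ∀ x ∈ H, ∀ y ∈ H, (P.filter (fun i => g i < x)).card / s =
      (P.filter (fun i => g i < y)).card / s) : H.card ≤ s / k + 1 := by
  rcases H.eq_empty_or_nonempty with h0 | h0
  · rw [h0]
    simp
  · obtain ⟨x, hx, hxm⟩ : ∃ x ∈ H, ∀ h ∈ H, x ≤ h :=
      ⟨H.min' h0, H.min'_mem h0, fun h hh => H.min'_le h hh⟩
    obtain ⟨y, hy, hym⟩ : ∃ y ∈ H, ∀ h ∈ H, h ≤ y :=
      ⟨H.max' h0, H.max'_mem h0, fun h hh => H.le_max' h hh⟩
    have hxy := hq x hx y hy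
    have h1 : (P.filter (fun i => g i < y)).card < (P.filter (fun i => g i < x)).card + s := by
      have a1 := Nat.div_add_mod (P.filter (fun i => g i < y)).card s
      have a2 := Nat.div_add_mod (P.filter (fun i => g i < x)).card s
      have a3 := Nat.mod_lt (P.filter (fun i => g i < y)).card hs
      have a4 := Nat.mod_lt (P.filter (fun i => g i < x)).card hs
      rw [← hxy] at a1
      omega
    have h2 : (P.filter (fun i => g i < x)).card + (H.erase y).card * k ≤
        (P.filter (fun i => g i < y)).card := by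
      have b0 : ∀ i ∈ P.filter (fun i => g i ∈ H.erase y), g i ∈ H.erase y :=
        fun i hi => (mem_filter.1 hi).2
      have b1 : (P.filter (fun i => g i ∈ H.erase y)).card =
          ∑ h ∈ H.erase y, ((P.filter (fun i => g i ∈ H.erase y)).filter
            (fun i => g i = h)).card := card_eq_sum_card_fiberwise b0
      have b2 : (H.erase y).card * k ≤ (P.filter (fun i => g i ∈ H.erase y)).card := by
        rw [b1, ← smul_eq_mul, ← sum_const]
        apply sum_le_sum
        intro h hh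
        obtain ⟨i, hi, rfl⟩ := mem_image.1 (hH (mem_of_mem_erase hh))
        refine (hfib i hi).trans (card_le_card ?_)
        intro j hj
        have hj' := mem_filter.1 hj
        refine mem_filter.2 ⟨mem_filter.2 ⟨hj'.1, ?_⟩, hj'.2⟩
        rw [hj'.2]
        exact hh
      have b3 : Disjoint (P.filter (fun i => g i < x)) (P.filter (fun i => g i ∈ H.erase y)) := by
        rw [disjoint_left]
        intro i hi hi2
        have c1 := (mem_filter.1 hi).2
        have c2 := hxm _ (mem_of_mem_erase (mem_filter.1 hi2).2)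
        omega
      have b4 : P.filter (fun i => g i < x) ∪ P.filter (fun i => g i ∈ H.erase y) ⊆
          P.filter (fun i => g i < y) := by
        intro i hi
        rcases mem_union.1 hi with h | h
        · have c1 := mem_filter.1 h
          exact mem_filter.2 ⟨c1.1, lt_of_lt_of_le c1.2 (hxm y hy)⟩
        · have c1 := mem_filter.1 h
          have c2 := mem_erase.1 c1.2
          exact mem_filter.2 ⟨c1.1, lt_of_le_of_ne (hym _ c2.2) c2.1⟩
      have b5 := card_le_card b4
      rw [card_union_of_disjoint b3] at b5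
      omega
    have h3 : (H.erase y).card = H.card - 1 := card_erase_of_mem hy
    have h4 : (H.erase y).card * k ≤ s := by omega
    have h5 : (H.erase y).card ≤ s / k := (Nat.le_div_iff_mul_le hk).2 h4
    omega

theorem count2 (N z s k m : ℕ) (P : Finset ℕ) (g : ℕ → ℕ) (hz : 0 < z) (hs : 0 < s)
    (hk : 0 < k) (hP : ∀ i ∈ P, i < N ∧ g i < N) (R : Finset ℕ)
    (hR : ∀ i ∈ P, i / z ∈ R ∧ g i / z ∉ R)
    (hsib : ∀ i ∈ P, ∀ j ∈ P, i / z = j / z → g i = g j → i = j)
    (hfib : ∀ i ∈ P, k ≤ (P.filter (fun j => g j = g i)).card)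
    (hm : N / z + P.card / s + 1 ≤ m)
    (hbig : m * m + (s / k + 1) * (2 * m) < P.card) :
    ∃ L : ℕ → ℕ, Monotone L ∧ (∀ t t', L t = L t' → t / z = t' / z) ∧
      ∃ E : Finset (ℕ × ℕ), 2 * m < E.card ∧ (∀ e ∈ E, e.1 < e.2 ∧ e.2 < m) ∧
        ∀ e ∈ E, ∃ i ∈ P, ∃ j ∈ P, i < j ∧
          ((L i = e.1 ∧ L j = e.1 ∧ L (g i) = e.2 ∧ L (g j) = e.2) ∨
            (L i = e.2 ∧ L j = e.2 ∧ L (g i) = e.1 ∧ L (g j) = e.1)) := by
  have hmono := count2_cnt_mono P g
  obtain ⟨cnt, hcnt⟩ : ∃ cnt : ℕ → ℕ, cnt = fun t => (P.filter (fun i => g i < t)).card :=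
    ⟨_, rfl⟩
  rw [← hcnt] at hmono
  have hcnt' : ∀ t, (P.filter (fun i => g i < t)).card = cnt t := fun t => by rw [hcnt]
  obtain ⟨L, hL⟩ : ∃ L : ℕ → ℕ, ∀ t, L t = t / z + cnt t / s := ⟨_, fun _ => rfl⟩
  have hLm : Monotone L := by
    intro a b hab
    rw [hL, hL]
    exact Nat.add_le_add (Nat.div_le_div_right hab) (Nat.div_le_div_right (hmono hab))
  have hLe : ∀ t t', L t = L t' → t / z = t' / z ∧ cnt t / s = cnt t' / s := by
    intro t t' h
    rw [hL, hL] at h
    exact count2_split z s cnt hmono t t' h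
  have hLlt : ∀ t, t < N → L t < m := by
    intro t ht
    have h1 : t / z ≤ N / z := Nat.div_le_div_right ht.le
    have h2 : cnt t ≤ P.card := by
      rw [← hcnt' t]
      exact card_filter_le _ _
    have h3 : cnt t / s ≤ P.card / s := Nat.div_le_div_right h2
    rw [hL]
    omega
  refine ⟨L, hLm, fun t t' h => (hLe t t' h).1, ?_⟩
  have hcm : ∀ i ∈ P, (L i, L (g i)) ∈ (range m ×ˢ range m) := by
    intro i hi
    rw [mem_product, mem_range, mem_range]
    exact ⟨hLlt _ (hP i hi).1, hLlt _ (hP i hi).2⟩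
  have hcell : ∀ e : ℕ × ℕ, (P.filter (fun i => (L i, L (g i)) = e)).card ≤ s / k + 1 := by
    intro e
    have h1 : ((P.filter (fun i => (L i, L (g i)) = e)).image g).card =
        (P.filter (fun i => (L i, L (g i)) = e)).card := by
      apply card_image_of_injOn
      intro i hi j hj hij
      have hi' := mem_filter.1 (mem_coe.1 hi)
      have hj' := mem_filter.1 (mem_coe.1 hj)
      have h2 : L i = L j := (Prod.ext_iff.1 (hi'.2.trans hj'.2.symm)).1
      exact hsib i hi'.1 j hj'.1 (hLe _ _ h2).1 hij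
    rw [← h1]
    refine count2_hub s k hs hk P g hfib _ (image_subset_image (filter_subset _ _)) ?_
    intro x hx y hy
    obtain ⟨i, hi, rfl⟩ := mem_image.1 hx
    obtain ⟨j, hj, rfl⟩ := mem_image.1 hy
    have hi' := mem_filter.1 hi
    have hj' := mem_filter.1 hj
    have h2 : L (g i) = L (g j) := (Prod.ext_iff.1 (hi'.2.trans hj'.2.symm)).2
    rw [hcnt', hcnt']
    exact (hLe _ _ h2).2
  obtain ⟨rich, hrich⟩ : ∃ rich : Finset (ℕ × ℕ), rich = (range m ×ˢ range m).filter
      (fun e => 2 ≤ (P.filter (fun i => (L i, L (g i)) = e)).card) := ⟨_, rfl⟩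
  have hrc : 2 * m < rich.card := by
    by_contra hcon
    have hcon' : rich.card ≤ 2 * m := not_lt.1 hcon
    have h1 : P.card = ∑ e ∈ range m ×ˢ range m,
        (P.filter (fun i => (L i, L (g i)) = e)).card := card_eq_sum_card_fiberwise hcm
    have h2 : ∑ e ∈ range m ×ˢ range m, (P.filter (fun i => (L i, L (g i)) = e)).card ≤
        ∑ e ∈ range m ×ˢ range m,
          (1 + if 2 ≤ (P.filter (fun i => (L i, L (g i)) = e)).card then s / k + 1 else 0) := by
      apply sum_le_sum
      intro e he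
      have := hcell e
      split_ifs with h
      · omega
      · omega
    rw [sum_add_distrib, ← sum_filter, ← hrich, sum_const, sum_const, card_product, card_range,
      smul_eq_mul, smul_eq_mul, mul_one, ← h1] at h2
    have h3 : rich.card * (s / k + 1) ≤ 2 * m * (s / k + 1) := Nat.mul_le_mul_right _ hcon'
    have h4 : 2 * m * (s / k + 1) = (s / k + 1) * (2 * m) := mul_comm _ _
    omega
  have hpt : ∀ e ∈ rich, ∃ i ∈ P, ∃ j ∈ P, i < j ∧ L i = e.1 ∧ L j = e.1 ∧ L (g i) = e.2 ∧
      L (g j) = e.2 := by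
    intro e he
    rw [hrich] at he
    have h1 := (mem_filter.1 he).2
    obtain ⟨i, hi, j, hj, hij⟩ := one_lt_card.1 (show 1 < _ from h1)
    have hi' := mem_filter.1 hi
    have hj' := mem_filter.1 hj
    have ei := Prod.ext_iff.1 hi'.2
    have ej := Prod.ext_iff.1 hj'.2
    rcases lt_or_gt_of_ne hij with h | h
    · exact ⟨i, hi'.1, j, hj'.1, h, ei.1, ej.1, ei.2, ej.2⟩
    · exact ⟨j, hj'.1, i, hi'.1, h, ej.1, ei.1, ej.2, ei.2⟩
  have hsep : ∀ i ∈ P, ∀ j ∈ P, L i ≠ L (g j) := by
    intro i hi j hj h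
    have h1 := (hLe _ _ h).1
    have h2 := (hR i hi).1
    rw [h1] at h2
    exact (hR j hj).2 h2
  have hrm : ∀ e ∈ rich, e.1 < m ∧ e.2 < m := by
    intro e he
    rw [hrich] at he
    have h1 := mem_product.1 (mem_filter.1 he).1
    exact ⟨mem_range.1 h1.1, mem_range.1 h1.2⟩
  have hinj : Set.InjOn (fun e : ℕ × ℕ => (min e.1 e.2, max e.1 e.2)) (rich : Set (ℕ × ℕ)) := by
    intro e he f hf hef
    have he' := mem_coe.1 he
    have hf' := mem_coe.1 hf
    obtain ⟨i, hi, _, _, _, e1, _, e2, _⟩ := hpt e he'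
    obtain ⟨j, hj, _, _, _, f1, _, f2, _⟩ := hpt f hf'
    have h1 : min e.1 e.2 = min f.1 f.2 := (Prod.ext_iff.1 hef).1
    have h2 : max e.1 e.2 = max f.1 f.2 := (Prod.ext_iff.1 hef).2
    have h3 : e.1 ≠ f.2 := by
      rw [← e1, ← f2]
      exact hsep i hi j hj
    have h4 : e.1 = f.1 ∧ e.2 = f.2 := by omega
    exact Prod.ext h4.1 h4.2
  refine ⟨rich.image (fun e : ℕ × ℕ => (min e.1 e.2, max e.1 e.2)), ?_, ?_, ?_⟩
  · rw [card_image_of_injOn hinj]
    exact hrc
  · intro e he
    obtain ⟨f, hf, rfl⟩ := mem_image.1 he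
    obtain ⟨i, hi, _, _, _, e1, _, e2, _⟩ := hpt f hf
    have h1 := hrm f hf
    have h2 : f.1 ≠ f.2 := by
      rw [← e1, ← e2]
      exact hsep i hi i hi
    refine ⟨?_, ?_⟩
    · show min f.1 f.2 < max f.1 f.2
      omega
    · show max f.1 f.2 < m
      omega
  · intro e he
    obtain ⟨f, hf, rfl⟩ := mem_image.1 he
    obtain ⟨i, hi, j, hj, hij, e1, e2, e3, e4⟩ := hpt f hf
    refine ⟨i, hi, j, hj, hij, ?_⟩
    rcases le_total f.1 f.2 with h | h
    · left
      show L i = min f.1 f.2 ∧ L j = min f.1 f.2 ∧ L (g i) = max f.1 f.2 ∧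
        L (g j) = max f.1 f.2
      rw [min_eq_left h, max_eq_right h]
      exact ⟨e1, e2, e3, e4⟩
    · right
      show L i = max f.1 f.2 ∧ L j = max f.1 f.2 ∧ L (g i) = min f.1 f.2 ∧
        L (g j) = min f.1 f.2
      rw [min_eq_right h, max_eq_left h]
      exact ⟨e1, e2, e3, e4⟩

end Pool.Agent.Helper36.Hub
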