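import Pool.Agent.Helper36.Hub.CrossCells
import Pool.Agent.Helper36.Hub.Bad
import Pool.Agent.Helper36.Hub.Sel
import Pool.Agent.Helper36.Hub.Count2

/-!
# Case 2 of the step lemma: many positions whose hub is on the cycle
-/

set_option autoImplicit false

namespace Pool.Agent.Helper36.Hub

open Finset
open Pool.Agent.Helper36.CL (HasCyc)

variable {V : Type*}

theorem case2 {G : SimpleGraph V} {N : ℕ} {u : ℕ → V} (hu : Cy G N u) (n q : ℕ)
    (hq1 : q * q ≤ n) (hq2 : n < (q + 1) * (q + 1)) (hqD : 10000 ≤ q) (hNn : N ≤ n)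
    (T : Finset ℕ) (g : ℕ → ℕ)
    (hT : ∀ i ∈ T, i < N ∧ g i < N ∧ (i + 2 ≤ g i ∨ g i + 2 ≤ i) ∧ G.Adj (u i) (u (g i)))
    (hc : 1000000 * (T.image g).card ≤ n) (hTc : n ≤ 3 * T.card) :
    SepK G q (q / 1584) ∨ Red G N (60 * q) := by
  classical
  set z := 60 * q with hz
  set B := T.filter (fun i => ((i ≤ g i + z ∧ g i ≤ i + z) ∨
    ∃ j ∈ T, ((i + 3 ≤ j ∧ j ≤ i + z) ∨ (j + 3 ≤ i ∧ i ≤ j + z)) ∧ g i = g j)) with hB
  by_cases hbad : n ≤ 6 * B.card
  · left
    refine bad_lengths hu q z (q / 1584) (by omega) B ?_ ?_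
    · intro x hx
      obtain ⟨hxT, hx2⟩ := Finset.mem_filter.1 hx
      obtain ⟨x1, x2, x3, x4⟩ := hT x hxT
      rcases hx2 with hxg | ⟨y, hyT, hxy, hf⟩
      · exact ⟨x1, g x, x2, Or.inl ⟨by omega, x4⟩⟩
      · obtain ⟨y1, y2, y3, y4⟩ := hT y hyT
        refine ⟨x1, y, y1, Or.inr ⟨hxy, u (g x), x4, ?_⟩⟩
        rw [hf]
        exact y4.symm
    · have h1 : q / 1584 * 1584 ≤ q := Nat.div_mul_le_self q 1584
      have h2 : 1584 * (q / 1584) * q ≤ q * q := Nat.mul_le_mul_right _ (by omega)
      have h3 : 6 * (4 * (q / 1584 * (6 * q + z))) = 1584 * (q / 1584) * q := by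
        rw [hz]; ring
      omega
  · right
    push Not at hbad
    have hz0 : 0 < z := by omega
    have dv : ∀ a b : ℕ, a / z = b / z → a ≤ b → b ≤ a + z := by
      intro a b hab _
      have h1 := Nat.div_add_mod a z
      have h2 := Nat.div_add_mod b z
      have h3 := Nat.mod_lt b hz0
      rw [hab] at h1
      omega
    obtain ⟨c, hc3⟩ := exists_mod_three (T \ B)
    set T3 := (T \ B).filter (fun i => i % 3 = c) with hT3
    have hT3T : ∀ i ∈ T3, i ∈ T ∧ i ∉ B ∧ i % 3 = c := by
      intro i hi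
      obtain ⟨h1, h2⟩ := Finset.mem_filter.1 hi
      exact ⟨(Finset.mem_sdiff.1 h1).1, (Finset.mem_sdiff.1 h1).2, h2⟩
    obtain ⟨R, hR⟩ := exists_colouring T3 (fun i => i / z) (fun i => g i / z) (by
      intro i hi h
      obtain ⟨i1, i2, i3⟩ := hT3T i hi
      apply i2
      refine Finset.mem_filter.2 ⟨i1, Or.inl ?_⟩
      have h' : i / z = g i / z := h
      rcases le_total i (g i) with h1 | h1
      · exact ⟨by omega, dv i (g i) h' h1⟩
      · exact ⟨dv (g i) i h'.symm h1, by omega⟩)
    set T4 := T3.filter (fun i => i / z ∈ R ∧ g i / z ∉ R) with hT4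
    obtain ⟨P, hPT, hPf, hPc⟩ := exists_drop T4 g 2000
    have hPall : ∀ i ∈ P, i ∈ T ∧ i ∉ B ∧ i % 3 = c ∧ i / z ∈ R ∧ g i / z ∉ R := by
      intro i hi
      obtain ⟨h1, h2⟩ := Finset.mem_filter.1 (hPT hi)
      obtain ⟨h3, h4, h5⟩ := hT3T i h1
      exact ⟨h3, h4, h5, h2⟩
    have hsub : (T4.image g).card ≤ (T.image g).card :=
      Finset.card_le_card (Finset.image_subset_image
        (fun i hi => (hT3T i (Finset.mem_filter.1 hi).1).1))
    have hTB : T.card ≤ (T \ B).card + B.card := by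
      have := Finset.le_card_sdiff B T
      omega
    have hsib : ∀ i ∈ P, ∀ j ∈ P, i / z = j / z → g i = g j → i = j := by
      intro i hi j hj hij hf
      obtain ⟨i1, i2, i3, -⟩ := hPall i hi
      obtain ⟨j1, j2, j3, -⟩ := hPall j hj
      by_contra hne
      apply i2
      refine Finset.mem_filter.2 ⟨i1, Or.inr ⟨j, j1, ?_, hf⟩⟩
      rcases lt_or_gt_of_ne hne with h | h
      · left
        exact ⟨by omega, dv i j hij h.le⟩
      · right
        exact ⟨by omega, dv j i hij.symm h.le⟩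
    -- numerics
    have hqq : 10000 * q ≤ q * q := Nat.mul_le_mul_right _ hqD
    have hPn : P.card ≤ N := by
      have : P ⊆ Finset.range N := fun i hi => Finset.mem_range.2 (hT i (hPall i hi).1).1
      simpa using Finset.card_le_card this
    have hdiv : ∀ a, a ≤ n → a / z ≤ (q + 2) / 60 := by
      intro a ha
      have h1 : a / z ≤ (q * q + 2 * q) / z := Nat.div_le_div_right (by nlinarith)
      have h2 : (q * q + 2 * q) / z = (q + 2) / 60 := by
        rw [hz, show q * q + 2 * q = (q + 2) * q by ring, Nat.mul_div_mul_right _ _ (by omega)]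
      omega
    have hm : N / z + P.card / z + 1 ≤ q / 25 := by
      have h1 := hdiv N hNn
      have h2 := hdiv P.card (by omega)
      omega
    have hbig : q / 25 * (q / 25) + (z / 2000 + 1) * (2 * (q / 25)) < P.card := by
      have h1 : q / 25 * 25 ≤ q := Nat.div_mul_le_self q 25
      have h5 : z / 2000 * 2000 ≤ z := Nat.div_mul_le_self z 2000
      set m := q / 25 with hmdef
      set t := z / 2000 with htdef
      have h2 : m * m * 625 ≤ q * q := by
        have h7 : m * 25 * (m * 25) ≤ q * q := Nat.mul_le_mul h1 h1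
        calc m * m * 625 = m * 25 * (m * 25) := by ring
          _ ≤ q * q := h7
      have h3 : (t + 1) * (2 * m) * 300 ≤ q * q := by
        have h6 : (t + 1) * 30 ≤ q := by omega
        have h7 : (t + 1) * 30 * (m * 25) ≤ q * q := Nat.mul_le_mul h6 h1
        calc (t + 1) * (2 * m) * 300 = 600 * ((t + 1) * m) := by ring
          _ ≤ 750 * ((t + 1) * m) := Nat.mul_le_mul_right _ (by norm_num)
          _ = (t + 1) * 30 * (m * 25) := by ring
          _ ≤ q * q := h7
      omega
    obtain ⟨L, hLm, hLz, E, hEc, hE1, hE2⟩ := count2 N z z 2000 (q / 25) P g hz0 hz0 (by norm_num)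
      (fun i hi => ⟨(hT i (hPall i hi).1).1, (hT i (hPall i hi).1).2.1⟩) R
      (fun i hi => (hPall i hi).2.2.2) hsib hPf hm hbig
    refine cross_cells hu L hLm (q / 25) E hE1 hEc ?_
    intro e he F hF
    obtain ⟨i, hi, j, hj, hij, hL⟩ := hE2 e he
    have he12 := (hE1 e he).1
    obtain ⟨i1, i2, i3, -⟩ := hPall i hi
    obtain ⟨j1, j2, j3, -⟩ := hPall j hj
    obtain ⟨a1, a2, a3, a4⟩ := hT i i1
    obtain ⟨b1, b2, b3, b4⟩ := hT j j1
    have hLlt : ∀ a b, L a < L b → a < b := by
      intro a b h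
      by_contra hcon
      have := hLm (not_lt.1 hcon)
      omega
    have hgij : g i ≠ g j := by
      intro h
      have h1 : L i = L j := by omega
      have := hsib i hi j hj (hLz _ _ h1) h
      omega
    have hcn : ∀ a b, G.Adj (u a) (u b) → Cn G u a [] b := by
      intro a b h
      exact List.isChain_cons_cons.2 ⟨h, List.isChain_singleton _⟩
    have hmem : ∀ v ∈ ([] : List V) ++ [], v ∉ F ∧ ∀ i < N, u i ≠ v := by
      intro v hv
      simp at hv
    rcases hL with ⟨l1, l2, l3, l4⟩ | ⟨l1, l2, l3, l4⟩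
    · -- the points come first
      have hd1 := dv i j (hLz _ _ (by omega)) hij.le
      rcases lt_or_gt_of_ne hgij with h | h
      · have hd2 := dv (g i) (g j) (hLz _ _ (by omega)) h.le
        refine ⟨i, j, g i, g j, [], [], ⟨hij, hLlt _ _ (by omega), h, ?_, by omega,
          Or.inl ⟨hcn _ _ a4, hcn _ _ b4⟩⟩, b2, l1, l2, l3, l4, by simp, by simp, hmem⟩
        simp only [List.length_nil]
        omega
      · have hd2 := dv (g j) (g i) (hLz _ _ (by omega)) h.le
        refine ⟨i, j, g j, g i, [], [], ⟨hij, hLlt _ _ (by omega), h, ?_, by omega,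
          Or.inr ⟨hcn _ _ a4, hcn _ _ b4⟩⟩, a2, l1, l2, l4, l3, by simp, by simp, hmem⟩
        simp only [List.length_nil]
        omega
    · -- the hubs come first
      have hd1 := dv i j (hLz _ _ (by omega)) hij.le
      rcases lt_or_gt_of_ne hgij with h | h
      · have hd2 := dv (g i) (g j) (hLz _ _ (by omega)) h.le
        refine ⟨g i, g j, i, j, [], [], ⟨h, hLlt _ _ (by omega), hij, ?_, by omega,
          Or.inl ⟨hcn _ _ a4.symm, hcn _ _ b4.symm⟩⟩, b1, l3, l4, l1, l2, by simp, by simp, hmem⟩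
        simp only [List.length_nil]
        omega
      · have hd2 := dv (g j) (g i) (hLz _ _ (by omega)) h.le
        refine ⟨g j, g i, i, j, [], [], ⟨h, hLlt _ _ (by omega), hij, ?_, by omega,
          Or.inr ⟨hcn _ _ b4.symm, hcn _ _ a4.symm⟩⟩, b1, l4, l3, l1, l2, by simp, by simp, hmem⟩
        simp only [List.length_nil]
        omega

end Pool.Agent.Helper36.Hub
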