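import Pool.Agent.Helper36.Hub.Base

/-!
# Many edges on a line contain a crossing pair (module HUB-4 of MP_c54260_co, Q2)
-/

set_option autoImplicit false

namespace Pool.Agent.Helper36.Hub

open Finset
open Pool.Agent.Helper36.CL (HasCyc)

variable {V : Type*}

theorem cross_aux (k : ℕ) : ∀ (W : Finset ℕ) (E : Finset (ℕ × ℕ)), W.card = k →
    (∀ e ∈ E, e.1 ∈ W ∧ e.2 ∈ W ∧ e.1 < e.2) → 2 * k < E.card →
    ∃ a b c d, a < c ∧ c < b ∧ b < d ∧ (a, b) ∈ E ∧ (c, d) ∈ E := by
  classical
  induction k with
  | zero =>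
    intro W E hW hE hc
    obtain ⟨e, he⟩ := Finset.card_pos.mp (lt_of_le_of_lt (Nat.zero_le _) hc)
    have h1 := (hE e he).1
    rw [Finset.card_eq_zero.mp hW] at h1
    exact absurd h1 (Finset.notMem_empty _)
  | succ k ih =>
    intro W E hW hE hc
    by_cases h1 : ∃ e ∈ E, ∃ w ∈ W, e.1 < w ∧ w < e.2
    · obtain ⟨e0, he0, w0, hw0, hlt0⟩ := h1
      obtain ⟨e, he, hmin⟩ := Finset.exists_min_image
        (E.filter (fun e => ∃ w ∈ W, e.1 < w ∧ w < e.2)) (fun e => e.2 - e.1)
        ⟨e0, Finset.mem_filter.mpr ⟨he0, w0, hw0, hlt0⟩⟩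
      rw [Finset.mem_filter] at he
      obtain ⟨heE, w, hwW, haw, hwb⟩ := he
      obtain ⟨a, b⟩ := e
      simp only at haw hwb
      by_contra hno
      have hA : (E.filter (fun e => e.1 = w)).card ≤ 1 := by
        rw [Finset.card_le_one]
        have key : ∀ x x', (w, x) ∈ E → (w, x') ∈ E → ¬ x < x' := by
          intro x x' hx hx' hlt
          have h2 : x' ≤ b := by
            by_contra h3
            exact hno ⟨a, b, w, x', haw, hwb, by omega, heE, hx'⟩
          have h4 := hE _ hx
          simp only at h4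
          have h5 := hmin (w, x') (Finset.mem_filter.mpr ⟨hx', x, h4.2.1, h4.2.2, hlt⟩)
          simp only at h5
          omega
        rintro ⟨p, x⟩ hx ⟨q, x'⟩ hx'
        rw [Finset.mem_filter] at hx hx'
        obtain ⟨hx, hp⟩ := hx
        obtain ⟨hx', hq⟩ := hx'
        simp only at hp hq
        subst hp
        subst hq
        have k1 := key x x' hx hx'
        have k2 := key x' x hx' hx
        have k3 : x = x' := by omega
        rw [k3]
      have hB : (E.filter (fun e => e.2 = w)).card ≤ 1 := by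
        rw [Finset.card_le_one]
        have key : ∀ y y', (y, w) ∈ E → (y', w) ∈ E → ¬ y < y' := by
          intro y y' hy hy' hlt
          have h2 : a ≤ y := by
            by_contra h3
            exact hno ⟨y, w, a, b, by omega, haw, hwb, hy, heE⟩
          have h4 := hE _ hy'
          simp only at h4
          have h5 := hmin (y, w) (Finset.mem_filter.mpr ⟨hy, y', h4.1, hlt, h4.2.2⟩)
          simp only at h5
          omega
        rintro ⟨y, p⟩ hy ⟨y', q⟩ hy'
        rw [Finset.mem_filter] at hy hy'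
        obtain ⟨hy, hp⟩ := hy
        obtain ⟨hy', hq⟩ := hy'
        simp only at hp hq
        subst hp
        subst hq
        have k1 := key y y' hy hy'
        have k2 := key y' y hy' hy
        have k3 : y = y' := by omega
        rw [k3]
      have hsplit : E ⊆ E.filter (fun e => e.1 ≠ w ∧ e.2 ≠ w) ∪
          (E.filter (fun e => e.1 = w) ∪ E.filter (fun e => e.2 = w)) := by
        intro f hf
        simp only [Finset.mem_union, Finset.mem_filter]
        by_cases h2 : f.1 = w
        · exact Or.inr (Or.inl ⟨hf, h2⟩)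
        · by_cases h3 : f.2 = w
          · exact Or.inr (Or.inr ⟨hf, h3⟩)
          · exact Or.inl ⟨hf, h2, h3⟩
      have hcard : E.card ≤ (E.filter (fun e => e.1 ≠ w ∧ e.2 ≠ w)).card + 2 := by
        have h2 := Finset.card_le_card hsplit
        have h3 := Finset.card_union_le (E.filter (fun e => e.1 ≠ w ∧ e.2 ≠ w))
          (E.filter (fun e => e.1 = w) ∪ E.filter (fun e => e.2 = w))
        have h4 := Finset.card_union_le (E.filter (fun e => e.1 = w))
          (E.filter (fun e => e.2 = w))
        omega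
      obtain ⟨a', b', c', d', g1, g2, g3, g4, g5⟩ :=
        ih (W.erase w) (E.filter (fun e => e.1 ≠ w ∧ e.2 ≠ w))
        (by rw [Finset.card_erase_of_mem hwW, hW]; omega)
        (by
          intro f hf
          rw [Finset.mem_filter] at hf
          have h2 := hE f hf.1
          exact ⟨Finset.mem_erase.mpr ⟨hf.2.1, h2.1⟩,
            Finset.mem_erase.mpr ⟨hf.2.2, h2.2.1⟩, h2.2.2⟩)
        (by omega)
      exact hno ⟨a', b', c', d', g1, g2, g3, (Finset.mem_filter.mp g4).1,
        (Finset.mem_filter.mp g5).1⟩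
    · exfalso
      have h2 : E.card ≤ W.card := by
        refine Finset.card_le_card_of_injOn Prod.fst (fun e he => (hE e he).1) ?_
        rintro ⟨p, x⟩ hx ⟨q, x'⟩ hx' hpq
        simp only at hpq
        subst hpq
        have hx : (p, x) ∈ E := hx
        have hx' : (p, x') ∈ E := hx'
        have k1 : ¬ x < x' := by
          intro hlt
          exact h1 ⟨(p, x'), hx', x, (hE _ hx).2.1, (hE _ hx).2.2, hlt⟩
        have k2 : ¬ x' < x := by
          intro hlt
          exact h1 ⟨(p, x), hx, x', (hE _ hx').2.1, (hE _ hx').2.2, hlt⟩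
        have k3 : x = x' := by omega
        rw [k3]
      omega

theorem exists_crossing (n : ℕ) (E : Finset (ℕ × ℕ)) (hE : ∀ e ∈ E, e.1 < e.2 ∧ e.2 < n)
    (hc : 2 * n < E.card) :
    ∃ a b c d, a < c ∧ c < b ∧ b < d ∧ (a, b) ∈ E ∧ (c, d) ∈ E := by
  refine cross_aux n (range n) E (card_range n) ?_ hc
  intro e he
  have h1 := hE e he
  exact ⟨mem_range.mpr (lt_trans h1.1 h1.2), mem_range.mpr h1.2, h1.1⟩

end Pool.Agent.Helper36.Hub
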