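import Pool.Agent.Helper36.Hub.Base

/-!
# Two crossing untwisted bands shorten a cycle (module HUB-3 of MP_c54260_co, Q2)
-/

set_option autoImplicit false

namespace Pool.Agent.Helper36.Hub

open Finset
open Pool.Agent.Helper36.CL (HasCyc)

variable {V : Type*}

theorem pair_seg_seg {G : SimpleGraph V} {N : ℕ} {u : ℕ → V} (hu : Cy G N u) {a b c d : ℕ}
    (hbc : b < c) (hd : d < N) : ∀ v ∈ seg u a b, ∀ w ∈ seg u c d, v ≠ w := by
  intro v hv w hw h
  obtain ⟨i, hi1, hi2, hi⟩ := mem_seg.1 hv
  obtain ⟨j, hj1, hj2, hj⟩ := mem_seg.1 hw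
  rw [← hi, ← hj] at h
  have := hu.inj i (by omega) j (by omega) h
  omega

theorem pair_seg_off {N : ℕ} {u : ℕ → V} {a b : ℕ} {v : V} (hv : ∀ i < N, u i ≠ v)
    (hb : b < N) : ∀ w ∈ seg u a b, w ≠ v := by
  intro w hw h
  obtain ⟨i, hi1, hi2, hi⟩ := mem_seg.1 hw
  exact hv i (by omega) (by rw [hi, h])

theorem pair {G : SimpleGraph V} {N : ℕ} {u : ℕ → V} (hu : Cy G N u)
    {p p' P P' r r' R R' : ℕ} {X X' Y Y' : List V}
    (h1 : p < p') (h2 : p' < P) (h3 : P < P') (h4 : P' < r) (h5 : r < r') (h6 : r' < R)
    (h7 : R < R') (h8 : R' < N)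
    (hnd : ((X ++ X') ++ (Y ++ Y')).Nodup)
    (hoff : ∀ v ∈ (X ++ X') ++ (Y ++ Y'), ∀ i < N, u i ≠ v)
    (c1 : Cn G u p X r') (c2 : Cn G u p' X' r) (c3 : Cn G u P Y R') (c4 : Cn G u P' Y' R) :
    HasCyc G ((p + 1) + X.length + (R - r' + 1) + Y'.length + (r - P' + 1) + X'.length +
      (P - p' + 1) + Y.length + (N - R')) := by
  have hlen : ((seg u 0 p ++ (X ++ (seg u r' R ++ (Y'.reverse ++ (seg u P' r ++
      (X'.reverse ++ (seg u p' P ++ (Y ++ seg u R' (N - 1))))))))) : List V).length =
      (p + 1) + X.length + (R - r' + 1) + Y'.length + (r - P' + 1) + X'.length +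
      (P - p' + 1) + Y.length + (N - R') := by
    simp only [List.length_append, seg_length, List.length_reverse]
    omega
  rw [← hlen]
  have hX : ∀ v ∈ X, ∀ i < N, u i ≠ v := fun v hv => hoff v (by simp [hv])
  have hX' : ∀ v ∈ X', ∀ i < N, u i ≠ v := fun v hv => hoff v (by simp [hv])
  have hY : ∀ v ∈ Y, ∀ i < N, u i ≠ v := fun v hv => hoff v (by simp [hv])
  have hY' : ∀ v ∈ Y', ∀ i < N, u i ≠ v := fun v hv => hoff v (by simp [hv])
  simp only [List.nodup_append, List.mem_append] at hnd
  obtain ⟨⟨nX, nX', dXX'⟩, ⟨nY, nY', dYY'⟩, dXY⟩ := hnd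
  apply hasCyc_of_list
  · rw [hlen]
    omega
  · simp only [List.nodup_append, List.mem_append, List.nodup_reverse, List.mem_reverse]
    refine ⟨seg_nodup hu (by omega), ⟨nX, ⟨seg_nodup hu (by omega), ⟨nY', ⟨seg_nodup hu (by omega),
      ⟨nX', ⟨seg_nodup hu (by omega), ⟨nY, seg_nodup hu (by omega), ?_⟩, ?_⟩, ?_⟩, ?_⟩, ?_⟩,
      ?_⟩, ?_⟩, ?_⟩
    · intro v hv w hw h
      exact pair_seg_off (hY v hv) (by omega) w hw h.symm
    · rintro v hv w (hw | hw)
      · exact pair_seg_off (hY w hw) (by omega) v hv
      · exact pair_seg_seg hu (by omega) (by omega) v hv w hw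
    · rintro v hv w (hw | hw | hw)
      · exact fun h => pair_seg_off (hX' v hv) (by omega) w hw h.symm
      · exact dXY v (Or.inr hv) w (Or.inl hw)
      · exact fun h => pair_seg_off (hX' v hv) (by omega) w hw h.symm
    · rintro v hv w (hw | hw | hw | hw)
      · exact pair_seg_off (hX' w hw) (by omega) v hv
      · exact fun h => pair_seg_seg hu (by omega) (by omega) w hw v hv h.symm
      · exact pair_seg_off (hY w hw) (by omega) v hv
      · exact pair_seg_seg hu (by omega) (by omega) v hv w hw
    · rintro v hv w (hw | hw | hw | hw | hw)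
      · exact fun h => pair_seg_off (hY' v hv) (by omega) w hw h.symm
      · exact fun h => dXY w (Or.inr hw) v (Or.inr hv) h.symm
      · exact fun h => pair_seg_off (hY' v hv) (by omega) w hw h.symm
      · exact fun h => dYY' w hw v hv h.symm
      · exact fun h => pair_seg_off (hY' v hv) (by omega) w hw h.symm
    · rintro v hv w (hw | hw | hw | hw | hw | hw)
      · exact pair_seg_off (hY' w hw) (by omega) v hv
      · exact fun h => pair_seg_seg hu (by omega) (by omega) w hw v hv h.symm
      · exact pair_seg_off (hX' w hw) (by omega) v hv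
      · exact fun h => pair_seg_seg hu (by omega) (by omega) w hw v hv h.symm
      · exact pair_seg_off (hY w hw) (by omega) v hv
      · exact pair_seg_seg hu (by omega) (by omega) v hv w hw
    · rintro v hv w (hw | hw | hw | hw | hw | hw | hw)
      · exact fun h => pair_seg_off (hX v hv) (by omega) w hw h.symm
      · exact dXY v (Or.inl hv) w (Or.inr hw)
      · exact fun h => pair_seg_off (hX v hv) (by omega) w hw h.symm
      · exact dXX' v hv w hw
      · exact fun h => pair_seg_off (hX v hv) (by omega) w hw h.symm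
      · exact dXY v (Or.inl hv) w (Or.inl hw)
      · exact fun h => pair_seg_off (hX v hv) (by omega) w hw h.symm
    · rintro v hv w (hw | hw | hw | hw | hw | hw | hw | hw)
      · exact pair_seg_off (hX w hw) (by omega) v hv
      · exact pair_seg_seg hu (by omega) (by omega) v hv w hw
      · exact pair_seg_off (hY' w hw) (by omega) v hv
      · exact pair_seg_seg hu (by omega) (by omega) v hv w hw
      · exact pair_seg_off (hX' w hw) (by omega) v hv
      · exact pair_seg_seg hu (by omega) (by omega) v hv w hw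
      · exact pair_seg_off (hY w hw) (by omega) v hv
      · exact pair_seg_seg hu (by omega) (by omega) v hv w hw
  · have e1 : (seg u p' P ++ (Y ++ seg u R' (N - 1))).IsChain G.Adj :=
      chain_glue (seg_chain hu (by omega)) (seg_getLast? (by omega)) c3
        (seg_chain hu (by omega)) (seg_head? (by omega))
    have g1 : (seg u p' P ++ (Y ++ seg u R' (N - 1))).head? = some (u p') := by
      rw [List.head?_append, seg_head? (by omega)]
      rfl
    have e2 : (seg u P' r ++ (X'.reverse ++ (seg u p' P ++ (Y ++ seg u R' (N - 1))))).IsChain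
        G.Adj :=
      chain_glue (seg_chain hu (by omega)) (seg_getLast? (by omega)) c2.symm e1 g1
    have g2 : (seg u P' r ++ (X'.reverse ++ (seg u p' P ++ (Y ++ seg u R' (N - 1))))).head? =
        some (u P') := by
      rw [List.head?_append, seg_head? (by omega)]
      rfl
    have e3 : (seg u r' R ++ (Y'.reverse ++ (seg u P' r ++ (X'.reverse ++ (seg u p' P ++
        (Y ++ seg u R' (N - 1))))))).IsChain G.Adj :=
      chain_glue (seg_chain hu (by omega)) (seg_getLast? (by omega)) c4.symm e2 g2
    have g3 : (seg u r' R ++ (Y'.reverse ++ (seg u P' r ++ (X'.reverse ++ (seg u p' P ++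
        (Y ++ seg u R' (N - 1))))))).head? = some (u r') := by
      rw [List.head?_append, seg_head? (by omega)]
      rfl
    exact chain_glue (seg_chain hu (by omega)) (seg_getLast? (by omega)) c1 e3 g3
  · intro x hx y hy
    rw [List.head?_append, seg_head? (by omega)] at hy
    have hy' : u 0 = y := by simpa using hy
    have hx' : u (N - 1) = x := by
      simpa [List.getLast?_append, seg_getLast? (u := u) (show R' ≤ N - 1 by omega)] using hx
    rw [← hy', ← hx']
    exact hu.close

end Pool.Agent.Helper36.Hub
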