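import Pool.Agent.Helper36.Hub.Base

set_option autoImplicit false

namespace Pool.Agent.Helper36.Hub

open Finset
open Pool.Agent.Helper36.CL (HasCyc)

variable {V : Type*}

theorem twist {G : SimpleGraph V} {N : ℕ} {u : ℕ → V} (hu : Cy G N u) {p p' r r' : ℕ}
    {X X' : List V} (h1 : p < p') (h2 : p' < r) (h3 : r < r') (h4 : r' < N)
    (hnd : (X ++ X').Nodup) (hoff : ∀ v ∈ X ++ X', ∀ i < N, u i ≠ v)
    (c : Cn G u p X r) (c' : Cn G u p' X' r') :
    HasCyc G ((p + 1) + X.length + (r - p' + 1) + X'.length + (N - r')) := by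
  have hoffX : ∀ v ∈ X, ∀ i < N, u i ≠ v := fun v hv => hoff v (List.mem_append_left _ hv)
  have hoffX' : ∀ v ∈ X', ∀ i < N, u i ≠ v := fun v hv => hoff v (List.mem_append_right _ hv)
  obtain ⟨hX, hX', hXX⟩ := List.nodup_append'.1 hnd
  -- the reversed middle segment
  have hrev : ((seg u p' r).reverse).IsChain G.Adj := by
    rw [List.isChain_reverse]
    exact (seg_chain hu (by omega)).imp (fun _ _ h => h.symm)
  have hrevh : ((seg u p' r).reverse).head? = some (u r) := by
    rw [List.head?_reverse, seg_getLast? (by omega)]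
  have hrevl : ((seg u p' r).reverse).getLast? = some (u p') := by
    rw [List.getLast?_reverse, seg_head? (by omega)]
  have ch1 : ((seg u p' r).reverse ++ (X' ++ seg u r' (N - 1))).IsChain G.Adj :=
    chain_glue hrev hrevl c' (seg_chain hu (by omega)) (seg_head? (by omega))
  have ch2 : (seg u 0 p ++ (X ++ ((seg u p' r).reverse ++ (X' ++ seg u r' (N - 1))))).IsChain
      G.Adj := by
    refine chain_glue (seg_chain hu (by omega)) (seg_getLast? (by omega)) c ch1 ?_
    rw [List.head?_append, hrevh]
    rfl
  have hlen : (seg u 0 p ++ (X ++ ((seg u p' r).reverse ++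
      (X' ++ seg u r' (N - 1))))).length =
      (p + 1) + X.length + (r - p' + 1) + X'.length + (N - r') := by
    simp only [List.length_append, List.length_reverse, seg_length]
    omega
  rw [← hlen]
  refine hasCyc_of_list _ ?_ ?_ ch2 ?_
  · rw [hlen]
    omega
  · rw [List.nodup_append', List.nodup_append', List.nodup_append', List.nodup_append']
    refine ⟨seg_nodup hu (by omega), ⟨hX, ⟨List.nodup_reverse.2 (seg_nodup hu (by omega)),
      ⟨hX', seg_nodup hu (by omega), ?_⟩, ?_⟩, ?_⟩, ?_⟩
    · intro v hv hv2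
      obtain ⟨i, hi1, hi2, rfl⟩ := mem_seg.1 hv2
      exact hoffX' _ hv i (by omega) rfl
    · intro v hv hv2
      rw [List.mem_reverse] at hv
      obtain ⟨i, hi1, hi2, rfl⟩ := mem_seg.1 hv
      rw [List.mem_append] at hv2
      rcases hv2 with hv2 | hv2
      · exact hoffX' _ hv2 i (by omega) rfl
      · obtain ⟨j, hj1, hj2, hj⟩ := mem_seg.1 hv2
        have := hu.inj j (by omega) i (by omega) hj
        omega
    · intro v hv hv2
      rw [List.mem_append, List.mem_append, List.mem_reverse] at hv2
      rcases hv2 with hv2 | hv2 | hv2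
      · obtain ⟨j, hj1, hj2, rfl⟩ := mem_seg.1 hv2
        exact hoffX _ hv j (by omega) rfl
      · exact hXX hv hv2
      · obtain ⟨j, hj1, hj2, rfl⟩ := mem_seg.1 hv2
        exact hoffX _ hv j (by omega) rfl
    · intro v hv hv2
      obtain ⟨i, hi1, hi2, rfl⟩ := mem_seg.1 hv
      rw [List.mem_append, List.mem_append, List.mem_append, List.mem_reverse] at hv2
      rcases hv2 with hv2 | hv2 | hv2 | hv2
      · exact hoffX _ hv2 i (by omega) rfl
      · obtain ⟨j, hj1, hj2, hj⟩ := mem_seg.1 hv2
        have := hu.inj j (by omega) i (by omega) hj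
        omega
      · exact hoffX' _ hv2 i (by omega) rfl
      · obtain ⟨j, hj1, hj2, hj⟩ := mem_seg.1 hv2
        have := hu.inj j (by omega) i (by omega) hj
        omega
  · intro x hx y hy
    have hlast : (seg u 0 p ++ (X ++ ((seg u p' r).reverse ++
        (X' ++ seg u r' (N - 1))))).getLast? = some (u (N - 1)) := by
      simp only [List.getLast?_append, seg_getLast? (show r' ≤ N - 1 by omega)]
      rfl
    have hhead : (seg u 0 p ++ (X ++ ((seg u p' r).reverse ++
        (X' ++ seg u r' (N - 1))))).head? = some (u 0) := by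
      rw [List.head?_append, seg_head? (Nat.zero_le p)]
      rfl
    rw [hlast] at hx
    rw [hhead] at hy
    have hx' : u (N - 1) = x := by simpa using hx
    have hy' : u 0 = y := by simpa using hy
    rw [← hx', ← hy']
    exact hu.close

end Pool.Agent.Helper36.Hub
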