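import Pool.Agent.Helper36.Hub.Base
import Pool.Agent.Helper36.Hub.Twist
import Pool.Agent.Helper36.Hub.Pair
import Pool.Agent.Helper36.Hub.Cross

/-!
# Crossing rich cells give a shorter cycle (module HUB-5 of MP_c54260_co, Q2)
-/

set_option autoImplicit false

namespace Pool.Agent.Helper36.Hub

open Finset
open Pool.Agent.Helper36.CL (HasCyc)

variable {V : Type*}

theorem cross_cells {G : SimpleGraph V} {N z : ℕ} {u : ℕ → V} (hu : Cy G N u)
    (L : ℕ → ℕ) (hL : Monotone L) (n : ℕ) (E : Finset (ℕ × ℕ))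
    (hE : ∀ e ∈ E, e.1 < e.2 ∧ e.2 < n) (hc : 2 * n < E.card)
    (hb : ∀ e ∈ E, ∀ F : List V, F.length ≤ 2 → ∃ p p' r r' : ℕ, ∃ X X' : List V,
      Band G u z p p' r r' X X' ∧ r' < N ∧ L p = e.1 ∧ L p' = e.1 ∧ L r = e.2 ∧ L r' = e.2 ∧
      (X ++ X').length ≤ 2 ∧ (X ++ X').Nodup ∧
      ∀ v ∈ X ++ X', v ∉ F ∧ ∀ i < N, u i ≠ v) : Red G N z := by
  obtain ⟨a, b, c, d, hac, hcb, hbd, hab, hcd⟩ := exists_crossing n E hE hc
  obtain ⟨p, p', r, r', X, X', B, hr', hp1, hp2, hr1, hr2, hlen, hnd, hoff⟩ :=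
    hb (a, b) hab [] (by simp)
  obtain ⟨P, P', R, R', Y, Y', B', hR', hP1, hP2, hR1, hR2, hlen', hnd', hoff'⟩ :=
    hb (c, d) hcd (X ++ X') hlen
  simp only at hp1 hp2 hr1 hr2 hP1 hP2 hR1 hR2
  have k1 : p' < P := by
    by_contra h
    have := hL (not_lt.mp h)
    omega
  have k2 : P' < r := by
    by_contra h
    have := hL (not_lt.mp h)
    omega
  have k3 : r' < R := by
    by_contra h
    have := hL (not_lt.mp h)
    omega
  have l1 := B.lt1
  have l2 := B.lt2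
  have l3 := B.lt3
  have l4 := B.big
  have l5 := B.small
  have m1 := B'.lt1
  have m2 := B'.lt2
  have m3 := B'.lt3
  have m4 := B'.big
  have m5 := B'.small
  rcases B.conn with ⟨c1, c2⟩ | ⟨c1, c2⟩
  · refine ⟨_, ?_, ?_, twist hu l1 l2 l3 hr' hnd (fun v hv => (hoff v hv).2) c1 c2⟩
    · omega
    · omega
  · rcases B'.conn with ⟨c3, c4⟩ | ⟨c3, c4⟩
    · refine ⟨_, ?_, ?_, twist hu m1 m2 m3 hR' hnd' (fun v hv => (hoff' v hv).2) c3 c4⟩
      · omega
      · omega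
    · refine ⟨_, ?_, ?_, pair hu l1 k1 m1 k2 l3 k3 m3 hR' ?_ ?_ c1 c2 c3 c4⟩
      · omega
      · omega
      · rw [List.nodup_append']
        refine ⟨hnd, hnd', ?_⟩
        intro v hv hv'
        exact (hoff' v hv').1 hv
      · intro v hv
        rw [List.mem_append] at hv
        rcases hv with hv | hv
        · exact (hoff v hv).2
        · exact (hoff' v hv).2

end Pool.Agent.Helper36.Hub
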