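import Pool.Agent.Helper36.CL.Defs

/-!
# Spread out cycle lengths in Hamiltonian graphs with few hubs (MP_c54260_co, Q2)

Definitions.  A cycle of `G` is given by its vertices `u 0, ..., u (N - 1)`.
-/

set_option autoImplicit false

namespace Pool.Agent.Helper36.Hub

open Pool.Agent.Helper36.CL (HasCyc)

variable {V : Type*}

/-- `u 0, ..., u (N - 1)` is a cycle of `G`. -/
structure Cy (G : SimpleGraph V) (N : ℕ) (u : ℕ → V) : Prop where
  three : 3 ≤ N
  inj : ∀ i < N, ∀ j < N, u i = u j → i = j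
  step : ∀ i, i + 1 < N → G.Adj (u i) (u (i + 1))
  close : G.Adj (u (N - 1)) (u 0)

/-- `G` has at least `k` cycle lengths any two of which differ by at least `2 * q`. -/
def SepK (G : SimpleGraph V) (q k : ℕ) : Prop :=
  ∃ L : Finset ℕ, (∀ l ∈ L, HasCyc G l) ∧ (∀ x ∈ L, ∀ y ∈ L, x < y → x + 2 * q ≤ y) ∧
    k ≤ L.card

/-- `G` has a cycle which is a little shorter than `N`. -/
def Red (G : SimpleGraph V) (N z : ℕ) : Prop :=
  ∃ N', N' < N ∧ N ≤ N' + 4 * z ∧ HasCyc G N'

/-- `u a`, the vertices of `X`, `u b` form a walk of `G`. -/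
def Cn (G : SimpleGraph V) (u : ℕ → V) (a : ℕ) (X : List V) (b : ℕ) : Prop :=
  (u a :: (X ++ [u b])).IsChain G.Adj

/-- A band: two connections between the pair of positions `p < p'` and the pair of positions
`r < r'`. -/
structure Band (G : SimpleGraph V) (u : ℕ → V) (z p p' r r' : ℕ) (X X' : List V) : Prop where
  lt1 : p < p'
  lt2 : p' < r
  lt3 : r < r'
  big : 4 + X.length + X'.length ≤ (p' - p) + (r' - r)
  small : (p' - p) + (r' - r) ≤ 2 * z
  conn : (Cn G u p X r ∧ Cn G u p' X' r') ∨ (Cn G u p X r' ∧ Cn G u p' X' r)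

end Pool.Agent.Helper36.Hub
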