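import Pool.Agent.Helper36.Hub.Base
import Pool.Agent.Helper36.CL.Cyc

/-!
# Many disjoint chords or few hubs (module HUB-15 of MP_c54260_co, Q2)
-/

set_option autoImplicit false

namespace Pool.Agent.Helper36.Hub

open Finset
open Pool.Agent.Helper36.CL (HasCyc Ham Chords IsChord)

variable {V : Type*}

/-- every vertex of degree at least `3` is an end of a chord -/
private theorem hubs_chord_at {V : Type*} [Fintype V] [DecidableEq V] (G : SimpleGraph V)
    [DecidableRel G.Adj] (h3 : 3 ≤ G.minDegree)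
    (G' : SimpleGraph ℕ) (ψ : ℕ → V) (hH : Ham G' (Fintype.card V))
    (hinj : ∀ i < Fintype.card V, ∀ j < Fintype.card V, ψ i = ψ j → i = j)
    (hsurj : ∀ v, ∃ i < Fintype.card V, ψ i = v)
    (hadj : ∀ i j, G'.Adj i j ↔
      i < Fintype.card V ∧ j < Fintype.card V ∧ G.Adj (ψ i) (ψ j))
    (x : ℕ) (hx : x < Fintype.card V) :
    ∃ y < Fintype.card V, IsChord G' (Fintype.card V) x y ∨
      IsChord G' (Fintype.card V) y x := by
  classical
  set n := Fintype.card V with hn
  obtain ⟨hn3, hstep, hwrap⟩ := hH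
  let N : Finset ℕ := (Finset.range n).filter (fun y => G'.Adj x y)
  have hNcard : N.card = G.degree (ψ x) := by
    rw [← SimpleGraph.card_neighborFinset_eq_degree]
    refine Finset.card_bij (fun y _ => ψ y) ?_ ?_ ?_
    · intro y hy
      rw [SimpleGraph.mem_neighborFinset]
      exact ((hadj x y).1 (Finset.mem_filter.1 hy).2).2.2
    · intro y hy z hz h
      exact hinj y (Finset.mem_range.1 (Finset.mem_filter.1 hy).1) z
        (Finset.mem_range.1 (Finset.mem_filter.1 hz).1) h
    · intro v hv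
      obtain ⟨y, hy, rfl⟩ := hsurj v
      rw [SimpleGraph.mem_neighborFinset] at hv
      refine ⟨y, ?_, rfl⟩
      simp only [N, Finset.mem_filter, Finset.mem_range]
      exact ⟨hy, (hadj x y).2 ⟨hx, hy, hv⟩⟩
  have hN3 : 3 ≤ N.card := by
    rw [hNcard]
    exact h3.trans (G.minDegree_le_degree _)
  let s := if x = n - 1 then 0 else x + 1
  let p := if x = 0 then n - 1 else x - 1
  have hlt : ({s, p} : Finset ℕ).card < N.card := lt_of_le_of_lt Finset.card_le_two (by omega)
  obtain ⟨y, hyN, hysp⟩ := Finset.exists_mem_notMem_of_card_lt_card hlt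
  rw [Finset.mem_insert, Finset.mem_singleton] at hysp
  obtain ⟨hyr, hadjxy⟩ := Finset.mem_filter.1 hyN
  have hyn : y < n := Finset.mem_range.1 hyr
  have hxy : x ≠ y := hadjxy.ne
  refine ⟨y, hyn, ?_⟩
  simp only [s, p] at hysp
  rcases lt_or_gt_of_ne hxy with hlt | hlt
  · left
    refine ⟨?_, hyn, ?_, hadjxy⟩
    · split_ifs at hysp <;> omega
    · split_ifs at hysp <;> omega
  · right
    refine ⟨?_, hx, ?_, hadjxy.symm⟩
    · split_ifs at hysp <;> omega
    · split_ifs at hysp <;> omega

theorem exists_hubs [Fintype V] [DecidableEq V] (G : SimpleGraph V) [DecidableRel G.Adj]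
    (h3 : 3 ≤ G.minDegree) (A : ℕ) (G' : SimpleGraph ℕ) (ψ : ℕ → V)
    (hH : Ham G' (Fintype.card V))
    (hinj : ∀ i < Fintype.card V, ∀ j < Fintype.card V, ψ i = ψ j → i = j)
    (hsurj : ∀ v, ∃ i < Fintype.card V, ψ i = v)
    (hadj : ∀ i j, G'.Adj i j ↔
      i < Fintype.card V ∧ j < Fintype.card V ∧ G.Adj (ψ i) (ψ j)) :
    (∃ K : Finset (ℕ × ℕ), Chords G' (Fintype.card V) K ∧ Fintype.card V ≤ A * K.card) ∨
      ∃ (S : Finset V) (h : V → V), (∀ x, x ∉ S → h x ∈ S ∧ G.Adj x (h x)) ∧
        A * S.card ≤ 2 * Fintype.card V := by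
  classical
  have hch := hubs_chord_at G h3 G' ψ hH hinj hsurj hadj
  set n := Fintype.card V with hn
  -- the families of disjoint chords
  let 𝓕 : Finset (Finset (ℕ × ℕ)) :=
    ((Finset.range n ×ˢ Finset.range n).powerset).filter (fun K => Chords G' n K)
  have hsub : ∀ K, Chords G' n K → K ⊆ Finset.range n ×ˢ Finset.range n := by
    intro K hK e he
    have h := hK.1 e he
    rw [Finset.mem_product, Finset.mem_range, Finset.mem_range]
    obtain ⟨h1, h2, -, -⟩ := h
    exact ⟨by omega, h2⟩
  have hne : 𝓕.Nonempty := by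
    refine ⟨∅, ?_⟩
    simp only [𝓕, Finset.mem_filter, Finset.mem_powerset]
    exact ⟨by simp, by simp, by simp⟩
  obtain ⟨K, hK𝓕, hKmax⟩ := Finset.exists_max_image 𝓕 Finset.card hne
  have hK : Chords G' n K := (Finset.mem_filter.1 hK𝓕).2
  have hmax : ∀ K', Chords G' n K' → K'.card ≤ K.card := by
    intro K' hK'
    refine hKmax K' ?_
    simp only [𝓕, Finset.mem_filter, Finset.mem_powerset]
    exact ⟨hsub K' hK', hK'⟩
  by_cases hbig : n ≤ A * K.card
  · exact Or.inl ⟨K, hK, hbig⟩
  right
  -- the ends of the chords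
  let M : Finset ℕ := K.biUnion (fun e => {e.1, e.2})
  have hMcard : M.card ≤ 2 * K.card := by
    calc M.card ≤ ∑ e ∈ K, ({e.1, e.2} : Finset ℕ).card := Finset.card_biUnion_le
      _ ≤ ∑ e ∈ K, 2 := Finset.sum_le_sum (fun e _ => Finset.card_le_two)
      _ = 2 * K.card := by rw [Finset.sum_const, smul_eq_mul, mul_comm]
  have hnotM : ∀ x ∉ M, ∀ e ∈ K, x ≠ e.1 ∧ x ≠ e.2 := by
    intro x hx e he
    simp only [M, Finset.mem_biUnion, Finset.mem_insert, Finset.mem_singleton] at hx
    push Not at hx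
    exact hx e he
  -- maximality
  have hchord : ∀ x ∉ M, ∀ y ∉ M, ¬ IsChord G' n x y := by
    intro x hx y hy hxy
    have hnew : (x, y) ∉ K := by
      intro h
      exact (hnotM x hx _ h).1 rfl
    have hcard := hmax (insert (x, y) K) ?_
    · rw [Finset.card_insert_of_notMem hnew] at hcard
      omega
    · refine ⟨?_, ?_⟩
      · intro e he
        rcases Finset.mem_insert.1 he with rfl | he
        · exact hxy
        · exact hK.1 e he
      · intro e he f hf hef
        rcases Finset.mem_insert.1 he with he | he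
        · rcases Finset.mem_insert.1 hf with hf | hf
          · exact absurd (he.trans hf.symm) hef
          · rw [he]
            exact ⟨(hnotM x hx f hf).1, (hnotM x hx f hf).2, (hnotM y hy f hf).1,
              (hnotM y hy f hf).2⟩
        · rcases Finset.mem_insert.1 hf with hf | hf
          · rw [hf]
            exact ⟨(hnotM x hx e he).1.symm, (hnotM y hy e he).1.symm,
              (hnotM x hx e he).2.symm, (hnotM y hy e he).2.symm⟩
          · exact hK.2 e he f hf hef
  have key : ∀ v : V, ∃ w : V, v ∉ M.image ψ → w ∈ M.image ψ ∧ G.Adj v w := by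
    intro v
    by_cases hv : v ∈ M.image ψ
    · exact ⟨v, fun h => absurd hv h⟩
    obtain ⟨x, hx, rfl⟩ := hsurj v
    have hxM : x ∉ M := fun h => hv (Finset.mem_image_of_mem ψ h)
    obtain ⟨y, hy, hc⟩ := hch x hx
    have hyM : y ∈ M := by
      by_contra hyM
      rcases hc with h | h
      · exact hchord x hxM y hyM h
      · exact hchord y hyM x hxM h
    refine ⟨ψ y, fun _ => ⟨Finset.mem_image_of_mem ψ hyM, ?_⟩⟩
    rcases hc with h | h
    · exact ((hadj x y).1 h.2.2.2).2.2
    · exact (((hadj y x).1 h.2.2.2).2.2).symm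
  choose h hh using key
  refine ⟨M.image ψ, h, hh, ?_⟩
  have hS : (M.image ψ).card ≤ 2 * K.card := Finset.card_image_le.trans hMcard
  calc A * (M.image ψ).card ≤ A * (2 * K.card) := Nat.mul_le_mul_left _ hS
    _ = 2 * (A * K.card) := by ring
    _ ≤ 2 * n := by omega

end Pool.Agent.Helper36.Hub
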