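import Pool.Agent.Helper36.Hub.Case1
import Pool.Agent.Helper36.Hub.Case2

/-!
# The step lemma and separated cycle lengths for graphs with few hubs
-/

set_option autoImplicit false

namespace Pool.Agent.Helper36.Hub

open Finset
open Pool.Agent.Helper36.CL (HasCyc)

variable {V : Type*}

theorem step_lemma {G : SimpleGraph V} [DecidableEq V] (S : Finset V) (h : V → V)
    (hh : ∀ x, x ∉ S → h x ∈ S ∧ G.Adj x (h x)) (n q : ℕ)
    (hq1 : q * q ≤ n) (hq2 : n < (q + 1) * (q + 1)) (hqD : 10000 ≤ q)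
    (hS : 1000000 * S.card ≤ n) {N : ℕ} {u : ℕ → V} (hu : Cy G N u) (hNn : N ≤ n)
    (hN : 3 * n ≤ 4 * N) : SepK G q (q / 1584) ∨ Red G N (60 * q) := by
  classical
  -- the position of a vertex of the cycle
  have hpos : ∃ pos : V → ℕ, ∀ v, (∃ k < N, u k = v) → pos v < N ∧ u (pos v) = v := by
    refine ⟨fun v => if hv : ∃ k < N, u k = v then hv.choose else 0, ?_⟩
    intro v hv
    have := hv.choose_spec
    simp only [dif_pos hv]
    exact this
  obtain ⟨pos, hpos⟩ := hpos
  set T1 := (Finset.range N).filter (fun i => u i ∉ S ∧ ∀ k < N, u k ≠ h (u i)) with hT1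
  set T2 := (Finset.range N).filter (fun i => u i ∉ S ∧ (∃ k < N, u k = h (u i)) ∧
    (i + 2 ≤ pos (h (u i)) ∨ pos (h (u i)) + 2 ≤ i)) with hT2
  -- positions of the elements of S
  set SP := (Finset.range N).filter (fun i => u i ∈ S) with hSP
  have hSPc : SP.card ≤ S.card := by
    refine Finset.card_le_card_of_injOn u ?_ ?_
    · intro i hi
      exact (Finset.mem_filter.1 hi).2
    · intro i hi j hj hij
      exact hu.inj i (Finset.mem_range.1 (Finset.mem_filter.1 hi).1) j
        (Finset.mem_range.1 (Finset.mem_filter.1 hj).1) hij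
  have hcover : Finset.range N ⊆ (T1 ∪ T2) ∪ (SP ∪ (SP.image (fun i => i + 1) ∪
      SP.image (fun i => i - 1))) := by
    intro i hi
    have hi' := Finset.mem_range.1 hi
    by_cases hiS : u i ∈ S
    · exact Finset.mem_union_right _ (Finset.mem_union_left _ (Finset.mem_filter.2 ⟨hi, hiS⟩))
    obtain ⟨h1, h2⟩ := hh _ hiS
    by_cases hk : ∃ k < N, u k = h (u i)
    · obtain ⟨p1, p2⟩ := hpos _ hk
      by_cases hd : i + 2 ≤ pos (h (u i)) ∨ pos (h (u i)) + 2 ≤ i
      · exact Finset.mem_union_left _ (Finset.mem_union_right _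
          (Finset.mem_filter.2 ⟨hi, hiS, hk, hd⟩))
      · have hSPm : pos (h (u i)) ∈ SP :=
          Finset.mem_filter.2 ⟨Finset.mem_range.2 p1, by rw [p2]; exact h1⟩
        have hne : pos (h (u i)) ≠ i := by
          intro he
          rw [he] at p2
          rw [← p2] at h2
          exact h2.ne rfl
        refine Finset.mem_union_right _ (Finset.mem_union_right _ ?_)
        rcases lt_or_gt_of_ne hne with hlt | hlt
        · exact Finset.mem_union_left _ (Finset.mem_image.2 ⟨_, hSPm, by omega⟩)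
        · exact Finset.mem_union_right _ (Finset.mem_image.2 ⟨_, hSPm, by omega⟩)
    · push Not at hk
      exact Finset.mem_union_left _ (Finset.mem_union_left _
        (Finset.mem_filter.2 ⟨hi, hiS, hk⟩))
  have hcard : N ≤ T1.card + T2.card + 3 * S.card := by
    have h1 := Finset.card_le_card hcover
    rw [Finset.card_range] at h1
    have h2 := Finset.card_union_le (T1 ∪ T2) (SP ∪ (SP.image (fun i => i + 1) ∪
      SP.image (fun i => i - 1)))
    have h3 := Finset.card_union_le T1 T2
    have h4 := Finset.card_union_le SP (SP.image (fun i => i + 1) ∪ SP.image (fun i => i - 1))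
    have h5 := Finset.card_union_le (SP.image (fun i => i + 1)) (SP.image (fun i => i - 1))
    have h6 : (SP.image (fun i => i + 1)).card ≤ SP.card := Finset.card_image_le
    have h7 : (SP.image (fun i => i - 1)).card ≤ SP.card := Finset.card_image_le
    omega
  have hor : n ≤ 3 * T1.card ∨ n ≤ 3 * T2.card := by omega
  rcases hor with hc | hc
  · refine case1 hu n q hq1 hq2 hqD hNn T1 (fun i => h (u i)) ?_ ?_ hc
    · intro i hi
      obtain ⟨h1, h2, h3⟩ := Finset.mem_filter.1 hi
      exact ⟨Finset.mem_range.1 h1, (hh _ h2).2, h3⟩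
    · refine le_trans (Nat.mul_le_mul_left _ (Finset.card_le_card ?_)) hS
      intro v hv
      obtain ⟨i, hi, rfl⟩ := Finset.mem_image.1 hv
      exact (hh _ (Finset.mem_filter.1 hi).2.1).1
  · refine case2 hu n q hq1 hq2 hqD hNn T2 (fun i => pos (h (u i))) ?_ ?_ hc
    · intro i hi
      obtain ⟨h1, h2, h3, h4⟩ := Finset.mem_filter.1 hi
      obtain ⟨p1, p2⟩ := hpos _ h3
      refine ⟨Finset.mem_range.1 h1, p1, h4, ?_⟩
      show G.Adj (u i) (u (pos (h (u i))))
      rw [p2]
      exact (hh _ h2).2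
    · refine le_trans (Nat.mul_le_mul_left _ ?_) hS
      refine Finset.card_le_card_of_injOn u ?_ ?_
      · intro k hk
        obtain ⟨i, hi, rfl⟩ := Finset.mem_image.1 hk
        obtain ⟨h1, h2, h3, h4⟩ := Finset.mem_filter.1 hi
        obtain ⟨p1, p2⟩ := hpos _ h3
        show u (pos (h (u i))) ∈ S
        rw [p2]
        exact (hh _ h2).1
      · intro k hk l hl hkl
        obtain ⟨i, hi, rfl⟩ := Finset.mem_image.1 hk
        obtain ⟨j, hj, rfl⟩ := Finset.mem_image.1 hl
        exact hu.inj _ (hpos _ (Finset.mem_filter.1 hi).2.2.1).1 _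
          (hpos _ (Finset.mem_filter.1 hj).2.2.1).1 hkl

theorem hub_lengths {G : SimpleGraph V} [DecidableEq V] (S : Finset V) (h : V → V)
    (hh : ∀ x, x ∉ S → h x ∈ S ∧ G.Adj x (h x)) (n q : ℕ)
    (hq1 : q * q ≤ n) (hq2 : n < (q + 1) * (q + 1)) (hqD : 10000 ≤ q)
    (hS : 1000000 * S.card ≤ n) (hG : HasCyc G n) (hmax : ∀ k, HasCyc G k → k ≤ n) :
    SepK G q (q / 1584) := by
  classical
  by_contra hno
  have hstep : ∀ N, HasCyc G N → 3 * n ≤ 4 * N → Red G N (60 * q) := by
    intro N hN h34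
    obtain ⟨u, hu⟩ := exists_cy hN
    rcases step_lemma S h hh n q hq1 hq2 hqD hS hu (hmax N hN) h34 with h1 | h1
    · exact absurd h1 hno
    · exact h1
  have hwin : ∀ t, t ≤ n → 3 * n ≤ 4 * t → ∃ l, HasCyc G l ∧ l < t ∧ t ≤ l + 240 * q := by
    intro t ht ht34
    have hex : ∃ N, HasCyc G N ∧ t ≤ N := ⟨n, hG, ht⟩
    obtain ⟨hN1, hN2⟩ := Nat.find_spec hex
    set N := Nat.find hex with hNdef
    obtain ⟨N', h1, h2, h3⟩ := hstep N hN1 (by omega)
    refine ⟨N', h3, ?_, by omega⟩
    by_contra hcon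
    exact Nat.find_min hex h1 ⟨h3, not_lt.1 hcon⟩
  have hk : q / 1584 * 1584 ≤ q := Nat.div_mul_le_self q 1584
  have hti : ∀ i, i < q / 1584 → 3 * n ≤ 4 * (n - i * (242 * q)) ∧ i * (242 * q) ≤ n := by
    intro i hi
    have h1 : i * 1584 ≤ q := le_trans (Nat.mul_le_mul_right _ hi.le) hk
    have h2 : i * 1584 * q ≤ q * q := Nat.mul_le_mul_right _ h1
    have h3 : i * 1584 * q = 1584 * (i * q) := by ring
    have h4 : i * (242 * q) = 242 * (i * q) := by ring
    omega
  have hl : ∀ i, ∃ l, i < q / 1584 → HasCyc G l ∧ l < n - i * (242 * q) ∧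
      n - i * (242 * q) ≤ l + 240 * q := by
    intro i
    by_cases hi : i < q / 1584
    · obtain ⟨h1, h2⟩ := hti i hi
      obtain ⟨l, h3⟩ := hwin (n - i * (242 * q)) (Nat.sub_le _ _) h1
      exact ⟨l, fun _ => h3⟩
    · exact ⟨0, fun h => absurd h hi⟩
  choose l hl using hl
  have hsep : ∀ i j, i < j → j < q / 1584 → l j + 2 * q ≤ l i ∧ l j < l i := by
    intro i j hij hj
    obtain ⟨-, a1, a2⟩ := hl i (by omega)
    obtain ⟨-, b1, b2⟩ := hl j hj
    obtain ⟨-, c1⟩ := hti j hj
    have h1 : i * (242 * q) + 242 * q ≤ j * (242 * q) := by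
      have : (i + 1) * (242 * q) ≤ j * (242 * q) := Nat.mul_le_mul_right _ hij
      rw [add_mul, one_mul] at this
      exact this
    omega
  apply hno
  refine ⟨(Finset.range (q / 1584)).image l, ?_, ?_, ?_⟩
  · intro x hx
    obtain ⟨i, hi, rfl⟩ := Finset.mem_image.1 hx
    exact (hl i (Finset.mem_range.1 hi)).1
  · intro x hx y hy hxy
    obtain ⟨i, hi, rfl⟩ := Finset.mem_image.1 hx
    obtain ⟨j, hj, rfl⟩ := Finset.mem_image.1 hy
    have hi' := Finset.mem_range.1 hi
    have hj' := Finset.mem_range.1 hj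
    rcases lt_trichotomy i j with h1 | h1 | h1
    · have := (hsep i j h1 hj').2
      omega
    · rw [h1] at hxy
      omega
    · exact (hsep j i h1 hi').1
  · rw [Finset.card_image_of_injOn, Finset.card_range]
    intro i hi j hj hij
    have hi' := Finset.mem_range.1 hi
    have hj' := Finset.mem_range.1 hj
    rcases lt_trichotomy i j with h1 | h1 | h1
    · have := (hsep i j h1 hj').2
      omega
    · exact h1
    · have := (hsep j i h1 hi').2
      omega

end Pool.Agent.Helper36.Hub
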